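import Mathlib

set_option autoImplicit false

/-! Nondegenerate conics over finite fields of characteristic 2: the nucleus. -/

namespace Pool.Agent.Work.MP_bbeacd_co

open QuadraticMap Module
open scoped LinearAlgebra.Projectivization

variable {K : Type*} [Field K]

lemma exists_sq [Finite K] [CharP K 2] (x : K) : ∃ y : K, y ^ 2 = x := by
  have hinj : Function.Injective (fun y : K => y ^ 2) := by
    intro a b h
    have h1 : (a + b) ^ 2 = 0 := by
      rw [CharTwo.add_sq]
      have h' : a ^ 2 = b ^ 2 := h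
      rw [h', CharTwo.add_self_eq_zero]
    exact CharTwo.add_eq_zero.mp (by simpa using h1)
  exact (Finite.injective_iff_surjective.mp hinj) x

lemma decomp (v : Fin 3 → K) : v = v 0 • (Pi.single 0 1 : Fin 3 → K) +
    v 1 • (Pi.single 1 1 : Fin 3 → K) + v 2 • (Pi.single 2 1 : Fin 3 → K) := by
  ext i
  fin_cases i <;> simp [Pi.single_apply]

lemma quad_add (Q : QuadraticForm K (Fin 3 → K)) (x y : Fin 3 → K) :
    Q (x + y) = Q x + Q y + polar Q x y := by
  unfold polar
  ring

/-- the radical of the polar form -/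
lemma exists_radical [Finite K] [CharP K 2] (Q : QuadraticForm K (Fin 3 → K))
    (hQ : ∀ v, v ≠ 0 → Q v = 0 → ∃ w, polar Q v w ≠ 0) :
    ∃ R : Fin 3 → K, (∀ w, polar Q R w = 0) ∧ Q R ≠ 0 := by
  set e0 : Fin 3 → K := Pi.single 0 1 with he0
  set e1 : Fin 3 → K := Pi.single 1 1 with he1
  set e2 : Fin 3 → K := Pi.single 2 1 with he2
  have hself : ∀ x : Fin 3 → K, polar Q x x = 0 := by
    intro x
    rw [polar_self, two_smul, CharTwo.add_self_eq_zero]
  set R : Fin 3 → K := polar Q e1 e2 • e0 + polar Q e2 e0 • e1 + polar Q e0 e1 • e2 with hR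
  have hexp : ∀ a b c : K, ∀ w : Fin 3 → K, polar Q (a • e0 + b • e1 + c • e2) w =
      a * polar Q e0 w + b * polar Q e1 w + c * polar Q e2 w := by
    intro a b c w
    rw [polar_add_left, polar_add_left, polar_smul_left, polar_smul_left, polar_smul_left]
    simp only [smul_eq_mul]
  have hexp2 : ∀ v w : Fin 3 → K, polar Q v w =
      w 0 * polar Q v e0 + w 1 * polar Q v e1 + w 2 * polar Q v e2 := by
    intro v w
    conv_lhs => rw [decomp w]
    rw [polar_add_right, polar_add_right, polar_smul_right, polar_smul_right, polar_smul_right]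
    simp only [smul_eq_mul]
    rfl
  have hrad : ∀ w, polar Q R w = 0 := by
    intro w
    rw [hR, hexp2, hexp, hexp, hexp, hself, hself, hself, polar_comm Q e1 e0, polar_comm Q e2 e1,
      polar_comm Q e0 e2]
    have d1 := CharTwo.add_self_eq_zero (w 0 * (polar Q e2 e0 * polar Q e0 e1))
    have d2 := CharTwo.add_self_eq_zero (w 1 * (polar Q e1 e2 * polar Q e0 e1))
    have d3 := CharTwo.add_self_eq_zero (w 2 * (polar Q e1 e2 * polar Q e2 e0))
    linear_combination d1 + d2 + d3
  have hR0 : R ≠ 0 := by
    intro h0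
    have h1 : R 0 = polar Q e1 e2 := by simp [hR, he0, he1, he2]
    have h2 : R 1 = polar Q e2 e0 := by simp [hR, he0, he1, he2]
    have h3 : R 2 = polar Q e0 e1 := by simp [hR, he0, he1, he2]
    rw [h0] at h1 h2 h3
    simp only [Pi.zero_apply] at h1 h2 h3
    have hall : ∀ v w, polar Q v w = 0 := by
      intro v w
      rw [hexp2, decomp v]
      change w 0 * polar Q (v 0 • e0 + v 1 • e1 + v 2 • e2) e0 +
        w 1 * polar Q (v 0 • e0 + v 1 • e1 + v 2 • e2) e1 +
        w 2 * polar Q (v 0 • e0 + v 1 • e1 + v 2 • e2) e2 = 0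
      rw [hexp, hexp, hexp, hself, hself, hself, polar_comm Q e1 e0, polar_comm Q e2 e1,
        polar_comm Q e0 e2, ← h1, ← h2, ← h3]
      ring
    -- a nonzero zero of `Q`
    obtain ⟨v, hv, hQv⟩ : ∃ v, v ≠ 0 ∧ Q v = 0 := by
      by_cases hz : Q e0 = 0
      · refine ⟨e0, ?_, hz⟩
        intro h
        have := congrFun h 0
        simp [he0] at this
      · obtain ⟨x, hx⟩ := exists_sq (Q e1)
        obtain ⟨y, hy⟩ := exists_sq (Q e0)
        refine ⟨x • e0 + y • e1, ?_, ?_⟩
        · intro h
          have h4 : y = 0 := by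
            have := congrFun h 1
            simpa [he0, he1] using this
          apply hz
          rw [← hy, h4]
          ring
        · rw [quad_add, hall, QuadraticMap.map_smul, QuadraticMap.map_smul, add_zero]
          simp only [smul_eq_mul]
          rw [← _root_.sq, ← _root_.sq, hx, hy, mul_comm, CharTwo.add_self_eq_zero]
    obtain ⟨w, hw⟩ := hQ v hv hQv
    exact hw (hall v w)
  refine ⟨R, hrad, ?_⟩
  intro h
  obtain ⟨w, hw⟩ := hQ R hR0 h
  exact hw (hrad w)

/-- All lines through the radical meet the conic in exactly one point. -/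
lemma tangent_of_radical [Finite K] [CharP K 2] (Q : QuadraticForm K (Fin 3 → K))
    (R : Fin 3 → K) (hR : ∀ w, polar Q R w = 0) (hQR : Q R ≠ 0)
    (φ : (Fin 3 → K) →ₗ[K] K) (hφ : φ ≠ 0) (hφR : φ R = 0) :
    ∃! P : ℙ K (Fin 3 → K), Q P.rep = 0 ∧ φ P.rep = 0 := by
  have hR0 : R ≠ 0 := by
    rintro rfl
    exact hQR (QuadraticMap.map_zero Q)
  have hker : finrank K (LinearMap.ker φ) = 2 := by
    have h1 := LinearMap.finrank_range_add_finrank_ker φ
    have h2 : finrank K (LinearMap.range φ) = 1 := by
      have : LinearMap.range φ = ⊤ := LinearMap.range_eq_top.mpr (LinearMap.surjective hφ)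
      rw [this, finrank_top, finrank_self]
    rw [h2, finrank_fin_fun] at h1
    omega
  -- a vector of the kernel outside the span of R
  obtain ⟨v0, hv0, hv0R⟩ : ∃ v0 ∈ LinearMap.ker φ, v0 ∉ (K ∙ R) := by
    by_contra hcon
    push Not at hcon
    have hle : LinearMap.ker φ ≤ (K ∙ R) := hcon
    have h1 := Submodule.finrank_mono hle
    rw [hker, finrank_span_singleton hR0] at h1
    omega
  obtain ⟨y, hy⟩ := exists_sq (Q v0 / Q R)
  set v := v0 + y • R with hv
  have hQv : Q v = 0 := by
    rw [hv, quad_add, polar_comm, polar_smul_left, hR, smul_zero, add_zero,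
      QuadraticMap.map_smul, smul_eq_mul, ← _root_.sq, hy, div_mul_cancel₀ _ hQR,
      CharTwo.add_self_eq_zero]
  have hφv : φ v = 0 := by
    rw [hv, map_add, map_smul, hφR, smul_zero, add_zero]
    exact hv0
  have hvR : v ∉ (K ∙ R) := by
    intro h
    apply hv0R
    have : v0 = v - y • R := by rw [hv]; abel
    rw [this]
    exact Submodule.sub_mem _ h (Submodule.smul_mem _ _ (Submodule.mem_span_singleton_self R))
  have hvne : v ≠ 0 := by
    intro h
    rw [h] at hvR
    exact hvR (Submodule.zero_mem _)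
  have hspan : LinearMap.ker φ = Submodule.span K {v, R} := by
    symm
    apply Submodule.eq_of_le_of_finrank_le
    · rw [Submodule.span_le]
      rintro x (rfl | hx)
      · exact hφv
      · rw [Set.mem_singleton_iff] at hx
        rw [hx]
        exact hφR
    · rw [hker]
      have hli : LinearIndependent K ![v, R] := by
        rw [LinearIndependent.pair_iff]
        intro s t hst
        have hs : s = 0 := by
          by_contra hs
          apply hvR
          rw [Submodule.mem_span_singleton]
          refine ⟨-(t / s), ?_⟩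
          have : s • v = -(t • R) := eq_neg_of_add_eq_zero_left hst
          calc (-(t / s)) • R = s⁻¹ • (-(t • R)) := by
                rw [smul_neg, smul_smul, neg_smul]
                congr 2
                field_simp
            _ = s⁻¹ • (s • v) := by rw [this]
            _ = v := by rw [smul_smul, inv_mul_cancel₀ hs, one_smul]
        refine ⟨hs, ?_⟩
        rw [hs, zero_smul, zero_add] at hst
        rcases smul_eq_zero.mp hst with h | h
        · exact h
        · exact absurd h hR0
      have h2 := finrank_span_eq_card hli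
      have hset : Set.range ![v, R] = {v, R} := by
        rw [Matrix.range_cons, Matrix.range_cons, Matrix.range_empty, Set.union_empty]
        rfl
      rw [hset] at h2
      rw [h2]
      simp
  refine ⟨Projectivization.mk K v hvne, ?_, ?_⟩
  · obtain ⟨a, ha⟩ := Projectivization.exists_smul_eq_mk_rep K v hvne
    have ha' : (Projectivization.mk K v hvne).rep = (a : K) • v := ha.symm
    constructor
    · rw [ha', QuadraticMap.map_smul, hQv, smul_zero]
    · rw [ha', map_smul, hφv, smul_zero]
  · rintro P ⟨hP1, hP2⟩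
    have hmem : P.rep ∈ Submodule.span K {v, R} := by
      rw [← hspan]
      exact hP2
    rw [Submodule.mem_span_pair] at hmem
    obtain ⟨a, b, hab⟩ := hmem
    have hb : b = 0 := by
      rw [← hab, quad_add, QuadraticMap.map_smul, hQv, QuadraticMap.map_smul, polar_comm,
        polar_smul_left, hR, smul_zero, smul_zero, zero_add, add_zero, smul_eq_mul] at hP1
      rcases mul_eq_zero.mp hP1 with h | h
      · rcases mul_eq_zero.mp h with h | h <;> exact h
      · exact absurd h hQR
    rw [hb, zero_smul, add_zero] at hab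
    conv_lhs => rw [← Projectivization.mk_rep P]
    rw [Projectivization.mk_eq_mk_iff']
    exact ⟨a, hab⟩

/-- Affine parametrisation of a conic tangent to the line at infinity. -/
lemma conic_param [Finite K] [CharP K 2] (Q : QuadraticForm K (Fin 3 → K))
    (hQ : ∀ v, v ≠ 0 → Q v = 0 → ∃ w, polar Q v w ≠ 0) (t n : K × K)
    (ht0 : t ≠ 0) (ht : Q ![t.1, t.2, 0] = 0)
    (hn : ∀ w, polar Q ![n.1, n.2, 0] w = 0) (hn0 : Q ![n.1, n.2, 0] ≠ 0)
    (hdet : t.1 * n.2 + t.2 * n.1 ≠ 0) :
    ∃ (p : K × K) (κ : K), κ ≠ 0 ∧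
      ∀ s : K, Q ![(p + ((s ^ 2 * κ) • t + s • n)).1, (p + ((s ^ 2 * κ) • t + s • n)).2, 1] = 0 := by
  set τ : Fin 3 → K := ![t.1, t.2, 0] with hτ
  set η : Fin 3 → K := ![n.1, n.2, 0] with hη
  set ε : Fin 3 → K := ![0, 0, 1] with hε
  have hself : ∀ x : Fin 3 → K, polar Q x x = 0 := by
    intro x
    rw [polar_self, two_smul, CharTwo.add_self_eq_zero]
  have hτ0 : τ ≠ 0 := by
    intro h
    apply ht0
    have h1 := congrFun h 0
    have h2 := congrFun h 1
    simp only [hτ, Matrix.cons_val_zero, Matrix.cons_val_one, Pi.zero_apply] at h1 h2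
    exact Prod.ext h1 h2
  -- `polar Q ε τ ≠ 0`
  have hρ : polar Q ε τ ≠ 0 := by
    intro h0
    obtain ⟨w, hw⟩ := hQ τ hτ0 ht
    apply hw
    -- w is a combination of τ, η, ε
    set dd := t.1 * n.2 + t.2 * n.1 with hdd
    have hcomb : w = ((w 0 * n.2 + w 1 * n.1) / dd) • τ + ((w 0 * t.2 + w 1 * t.1) / dd) • η +
        w 2 • ε := by
      ext i
      fin_cases i
      · simp only [hτ, hη, hε, Pi.add_apply, Pi.smul_apply, smul_eq_mul, Fin.zero_eta,
          Matrix.cons_val_zero]
        field_simp
        have d1 := CharTwo.add_self_eq_zero (w 1 * n.1 * t.1)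
        rw [hdd]
        linear_combination -d1
      · simp only [hτ, hη, hε, Pi.add_apply, Pi.smul_apply, smul_eq_mul, Fin.mk_one,
          Matrix.cons_val_one]
        field_simp
        have d1 := CharTwo.add_self_eq_zero (w 0 * n.2 * t.2)
        rw [hdd]
        simp only [Matrix.cons_val_zero]
        linear_combination -d1
      · simp [hτ, hη, hε]
    rw [hcomb, polar_add_right, polar_add_right, polar_smul_right, polar_smul_right,
      polar_smul_right, hself, polar_comm Q τ η, hn, polar_comm Q τ ε, h0]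
    simp
  obtain ⟨y0, hy0⟩ := exists_sq (Q ε / Q η)
  have hp0 : Q (ε + y0 • η) = 0 := by
    rw [quad_add, polar_comm, polar_smul_left, hn, smul_zero, add_zero,
      QuadraticMap.map_smul, smul_eq_mul, ← _root_.sq, hy0, div_mul_cancel₀ _ hn0,
      CharTwo.add_self_eq_zero]
  refine ⟨y0 • n, Q η / polar Q ε τ, div_ne_zero hn0 hρ, ?_⟩
  intro s
  have hvec : (![(y0 • n + ((s ^ 2 * (Q η / polar Q ε τ)) • t + s • n)).1,
      (y0 • n + ((s ^ 2 * (Q η / polar Q ε τ)) • t + s • n)).2, 1] : Fin 3 → K) =
      (ε + y0 • η) + ((s ^ 2 * (Q η / polar Q ε τ)) • τ + s • η) := by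
    ext i
    fin_cases i <;> simp [hτ, hη, hε]
  rw [hvec, quad_add, hp0, quad_add, QuadraticMap.map_smul, ht, QuadraticMap.map_smul]
  have e1 : polar Q ((s ^ 2 * (Q η / polar Q ε τ)) • τ) (s • η) = 0 := by
    rw [polar_comm, polar_smul_left, hn, smul_zero]
  have e2 : polar Q (ε + y0 • η) ((s ^ 2 * (Q η / polar Q ε τ)) • τ + s • η) =
      s ^ 2 * Q η := by
    rw [polar_add_right, polar_smul_right, polar_smul_right, polar_comm Q _ η, hn, smul_zero,
      add_zero, polar_add_left, polar_smul_left, hn, smul_zero, add_zero, smul_eq_mul]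
    field_simp
  rw [e1, e2]
  simp only [smul_eq_mul]
  have d1 := CharTwo.add_self_eq_zero (s ^ 2 * Q η)
  linear_combination d1

end Pool.Agent.Work.MP_bbeacd_co
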