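import Pool.Agent.Work.MP_bbeacd_co.Frob

set_option autoImplicit false

/-! Three points of the inherited set on one line of the André plane, in coordinates. -/

namespace Pool.Agent.Work.MP_bbeacd_co

variable {K : Type*} [Field K] [Fintype K] {q : ℕ}

lemma exists_norm (hq4 : 4 ≤ q) (hK : Fintype.card K = q ^ 3) (δ : K) (hδ0 : δ ≠ 0)
    (hδ : δ ^ q = δ) : ∃ w : K, w ≠ 0 ∧ w ^ (q ^ 2 + q + 1) = δ := by
  classical
  have hcard : Nat.card Kˣ = q ^ 3 - 1 := by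
    rw [Nat.card_units, Nat.card_eq_fintype_card, hK]
  have hfac : q ^ 3 - 1 = (q - 1) * (q ^ 2 + q + 1) := by
    obtain ⟨r, rfl⟩ : ∃ r, q = r + 1 := ⟨q - 1, by omega⟩
    have e : (r + 1) ^ 3 = (r + 1 - 1) * ((r + 1) ^ 2 + (r + 1) + 1) + 1 := by
      simp only [Nat.add_sub_cancel]
      ring
    omega
  have hr : Nat.card (powMonoidHom (q ^ 2 + q + 1) : Kˣ →* Kˣ).range = q - 1 := by
    rw [IsCyclic.card_powMonoidHom_range, hcard, hfac, Nat.gcd_eq_right (Dvd.intro_left _ rfl)]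
    exact Nat.mul_div_cancel _ (by positivity)
  have hk : Nat.card (powMonoidHom (q - 1) : Kˣ →* Kˣ).ker = q - 1 := by
    rw [IsCyclic.card_powMonoidHom_ker, hcard, hfac, Nat.gcd_eq_right (Dvd.intro _ rfl)]
  have hle : (powMonoidHom (q ^ 2 + q + 1) : Kˣ →* Kˣ).range ≤
      (powMonoidHom (q - 1) : Kˣ →* Kˣ).ker := by
    rintro _ ⟨x, rfl⟩
    rw [MonoidHom.mem_ker, powMonoidHom_apply, powMonoidHom_apply, ← pow_mul, mul_comm, ← hfac,
      ← hcard]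
    exact pow_card_eq_one'
  have heq := Subgroup.eq_of_le_of_card_ge hle (by rw [hr, hk])
  have hmem : Units.mk0 δ hδ0 ∈ (powMonoidHom (q - 1) : Kˣ →* Kˣ).ker := by
    rw [MonoidHom.mem_ker, powMonoidHom_apply]
    apply Units.ext
    rw [Units.val_pow_eq_pow_val, Units.val_mk0, Units.val_one]
    apply mul_left_cancel₀ hδ0
    rw [← pow_succ', Nat.sub_add_cancel (by omega), hδ, mul_one]
  rw [← heq] at hmem
  obtain ⟨w, hw⟩ := hmem
  refine ⟨w, w.ne_zero, ?_⟩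
  have := congrArg Units.val hw
  simpa using this

lemma three_points [CharP K 2] {h : ℕ} (hh : 1 < h) (hq : q = 2 ^ h)
    (hK : Fintype.card K = q ^ 3) (m : ℕ) (hm : m = 1 ∨ m = 2) (T1 T2 N1 N2 δ : K)
    (hδ0 : δ ≠ 0) (hδ : δ ^ q = δ) (hΔ : T1 * N2 + T2 * N1 ≠ 0) (h1 : ¬ (N2 = 0 ∧ T1 = 0))
    (h2 : ¬ (N1 = 0 ∧ T2 = 0)) :
    ∃ u s s' : K, u ^ (q ^ 2 + q + 1) = δ ∧ s ^ 2 * T1 + s * N1 ≠ 0 ∧ s' ^ 2 * T1 + s' * N1 ≠ 0 ∧
      s ^ 2 * T2 + s * N2 = (s ^ 2 * T1 + s * N1) ^ (q ^ m) * u ∧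
      s' ^ 2 * T2 + s' * N2 = (s' ^ 2 * T1 + s' * N1) ^ (q ^ m) * u ∧
      ¬ (s ^ 2 * T1 + s * N1 = s' ^ 2 * T1 + s' * N1 ∧
        s ^ 2 * T2 + s * N2 = s' ^ 2 * T2 + s' * N2) := by
  have hq4 : 4 ≤ q := by
    rw [hq]
    calc 4 = 2 ^ 2 := rfl
      _ ≤ 2 ^ h := Nat.pow_le_pow_right (by norm_num) hh
  obtain ⟨w0, hw0, hw0n⟩ := exists_norm hq4 hK δ hδ0 hδ
  set σ : K →+* K := iterateFrobenius K 2 (h * m) with hσdef
  have hσ : ∀ x, σ x = x ^ (q ^ m) := by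
    intro x
    rw [hσdef, iterateFrobenius_def, hq, ← pow_mul]
  have hσ' : (∀ x, σ x = x ^ q) ∨ (∀ x, σ x = x ^ (q ^ 2)) := by
    rcases hm with rfl | rfl
    · left
      intro x
      rw [hσ, pow_one]
    · right
      exact hσ
  have D := dat_of hh hq hK σ hσ'
  have hσ0 : ∀ x, x ≠ 0 → σ x ≠ 0 := fun x hx h => hx ((map_eq_zero σ).mp h)
  obtain ⟨z, z', ν, hν, hν0, hz, hz', hzz, hA, hA', hB, hB', heq⟩ :=
    collision hh hq hK σ hσ' N2 (w0 * N1) T2 (w0 * T1)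
      (by
        have : N2 * (w0 * T1) + w0 * N1 * T2 = w0 * (T1 * N2 + T2 * N1) := by ring
        rw [this]
        exact mul_ne_zero hw0 hΔ)
      (by
        rintro ⟨ha, hb⟩
        exact h1 ⟨ha, (mul_eq_zero.mp hb).resolve_left hw0⟩)
      (by
        rintro ⟨ha, hb⟩
        exact h2 ⟨(mul_eq_zero.mp ha).resolve_left hw0, hb⟩)
  obtain ⟨Δ, hΔdef⟩ : ∃ Δ, Δ = T1 * N2 + T2 * N1 := ⟨_, rfl⟩
  rw [← hΔdef] at hΔ
  -- general formulas
  have hX : ∀ t n d : K, n = N2 * t + w0 * N1 * σ t → d = T2 * t + w0 * T1 * σ t → d ≠ 0 →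
      (n / d) ^ 2 * T1 + (n / d) * N1 = Δ * t * (n / d ^ 2) := by
    intro t n d hn hd hd0
    have key : n * T1 + d * N1 = Δ * t := by
      have d1 := D.add_self (w0 * N1 * T1 * σ t)
      rw [hn, hd, hΔdef]
      linear_combination d1
    field_simp
    linear_combination n * key
  have hY : ∀ t n d : K, n = N2 * t + w0 * N1 * σ t → d = T2 * t + w0 * T1 * σ t → d ≠ 0 →
      (n / d) ^ 2 * T2 + (n / d) * N2 = w0 * σ t * (Δ * (n / d ^ 2)) := by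
    intro t n d hn hd hd0
    have key : n * T2 + d * N2 = w0 * σ t * Δ := by
      have d1 := D.add_self (T2 * N2 * t)
      rw [hn, hd, hΔdef]
      linear_combination d1
    field_simp
    linear_combination n * key
  obtain ⟨L1, hL1⟩ : ∃ L1, L1 = N2 * z + w0 * N1 * σ z := ⟨_, rfl⟩
  obtain ⟨L2, hL2⟩ : ∃ L2, L2 = T2 * z + w0 * T1 * σ z := ⟨_, rfl⟩
  obtain ⟨L1', hL1'⟩ : ∃ L1', L1' = N2 * z' + w0 * N1 * σ z' := ⟨_, rfl⟩
  obtain ⟨L2', hL2'⟩ : ∃ L2', L2' = T2 * z' + w0 * T1 * σ z' := ⟨_, rfl⟩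
  rw [← hL1] at hA heq
  rw [← hL2] at hB heq
  rw [← hL1'] at hA' heq
  rw [← hL2'] at hB' heq
  have hFne : L1 / L2 ^ 2 ≠ 0 := div_ne_zero hA (pow_ne_zero 2 hB)
  have hFne' : L1' / L2' ^ 2 ≠ 0 := div_ne_zero hA' (pow_ne_zero 2 hB')
  have hF : L1 / L2 ^ 2 = ν * (L1' / L2' ^ 2) := by
    field_simp
    linear_combination heq
  have hXz := hX z L1 L2 hL1 hL2 hB
  have hXz' := hX z' L1' L2' hL1' hL2' hB'
  have hYz := hY z L1 L2 hL1 hL2 hB
  have hYz' := hY z' L1' L2' hL1' hL2' hB'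
  obtain ⟨F, hFdef⟩ : ∃ F, F = L1 / L2 ^ 2 := ⟨_, rfl⟩
  obtain ⟨F', hFdef'⟩ : ∃ F', F' = L1' / L2' ^ 2 := ⟨_, rfl⟩
  rw [← hFdef] at hXz hYz hFne hF
  rw [← hFdef'] at hXz' hYz' hFne' hF
  -- the norm of g / σ g is 1
  have hnorm : ∀ g : K, g ≠ 0 → (g / σ g) ^ (q ^ 2 + q + 1) = 1 := by
    intro g hg
    have hc : ∀ x : K, x ^ (q ^ 3) = x := by
      intro x
      rw [← hK]
      exact FiniteField.pow_card x
    have e1 : (g ^ (q ^ 2 + q + 1)) ^ q = g ^ (q ^ 2 + q + 1) := by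
      rw [← pow_mul]
      have : (q ^ 2 + q + 1) * q = q ^ 3 + (q ^ 2 + q) := by ring
      rw [this, pow_add, hc, ← pow_succ']
    have e2 : (g ^ (q ^ 2 + q + 1)) ^ (q ^ m) = g ^ (q ^ 2 + q + 1) := by
      generalize g ^ (q ^ 2 + q + 1) = y at e1 ⊢
      rcases hm with rfl | rfl
      · rw [pow_one, e1]
      · rw [sq q, pow_mul, e1, e1]
    rw [div_pow, hσ, ← pow_mul, mul_comm (q ^ m), pow_mul, e2]
    exact div_self (pow_ne_zero _ hg)
  refine ⟨w0 * (Δ / σ Δ) * (F / σ F), L1 / L2, L1' / L2', ?_, ?_, ?_, ?_, ?_, ?_⟩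
  · rw [mul_pow, mul_pow, hnorm _ hΔ, hnorm _ hFne, hw0n]
    ring
  · rw [hXz]
    exact mul_ne_zero (mul_ne_zero hΔ hz) hFne
  · rw [hXz']
    exact mul_ne_zero (mul_ne_zero hΔ hz') hFne'
  · rw [hXz, hYz, ← hσ, map_mul, map_mul]
    have s1 := hσ0 _ hΔ
    have s2 := hσ0 _ hFne
    field_simp
  · rw [hXz', hYz', ← hσ, map_mul, map_mul, hF, map_mul, hν]
    have s1 := hσ0 _ hΔ
    have s2 := hσ0 _ hFne'
    field_simp
  · rintro ⟨e1, e2⟩
    rw [hXz, hXz'] at e1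
    rw [hYz, hYz'] at e2
    have e1' : z * F = z' * F' := by
      apply mul_left_cancel₀ hΔ
      linear_combination e1
    have e2' : σ z * F = σ z' * F' := by
      apply mul_left_cancel₀ (mul_ne_zero hw0 hΔ)
      linear_combination e2
    apply hzz (F / F') _ _
    · have hz2 : σ z' * (z * F) = z' * (σ z * F) := by
        rw [e1', e2']
        ring
      have hz3 : σ z' * z = z' * σ z := by
        apply mul_right_cancel₀ hFne
        linear_combination hz2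
      have hFz : F / F' = z' / z := by
        field_simp
        linear_combination e1'
      rw [hFz, map_div₀]
      have := hσ0 _ hz
      field_simp
      linear_combination hz3
    · field_simp
      linear_combination -e1'

end Pool.Agent.Work.MP_bbeacd_co
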