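import Pool.Agent.Work.MP_bbeacd_co.Lin

set_option autoImplicit false

/-! The two singular cases. -/

namespace Pool.Agent.Work.MP_bbeacd_co.Dat

variable {K : Type*} [Field K] {σ : K →+* K} {q : ℕ} (D : Dat K σ q)

include D

/-- `L₁` is proportional to `z + σ z`. -/
lemma caseB (l : K → K) (ladd : ∀ x y, l (x + y) = l x + l y)
    (lsmul : ∀ c ∈ fx σ, ∀ x, l (c * x) = c * l x) (l1 : l 1 = 1) (hr : ∃ v, l v ∉ fx σ) :
    ∃ z z' ν : K, ν ∈ fx σ ∧ ν ≠ 0 ∧ (∀ c ∈ fx σ, z' ≠ c * z) ∧ z ∉ fx σ ∧ z' ∉ fx σ ∧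
      l z ≠ 0 ∧ l z' ≠ 0 ∧ (z + σ z) * l z' ^ 2 = ν * ((z' + σ z') * l z ^ 2) := by
  have := D.fin
  have l0 : l 0 = 0 := by
    have := ladd 0 0
    rw [add_zero] at this
    exact (left_eq_add.mp this)
  obtain ⟨v, hv⟩ := hr
  -- choice of `s`
  let P₁ : Submodule (fx σ) K := kerSub (fun s => D.tr ((s + σ s) * l v ^ 2)) 1
    (by
      intro x y
      rw [map_add, ← D.tr_add]
      congr 1
      ring)
    (by
      intro c hc x
      have hc' : σ c = c := hc
      rw [map_mul, hc', pow_one, ← D.tr_smul hc]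
      congr 1
      ring)
    (by
      rw [map_zero, add_zero, zero_mul]
      exact D.tr_zero)
  have hP₁ : P₁ ≠ ⊤ := kerSub_ne_top (by
    obtain ⟨s, hs⟩ := D.exists_tr_diff_ne (x := l v ^ 2) (fun h => hv (D.sqrt_mem h))
    exact ⟨s, hs⟩)
  let P₂ : Submodule (fx σ) K := kerSub (fun s => l s + σ (l s)) 1
    (by
      intro x y
      rw [ladd, map_add]
      ring)
    (by
      intro c hc x
      have hc' : σ c = c := hc
      rw [lsmul c hc, map_mul, hc', pow_one]
      ring)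
    (by
      rw [l0, map_zero, add_zero])
  have hP₂ : P₂ ≠ ⊤ := kerSub_ne_top ⟨v, fun h => hv (D.eq_of_add h).symm⟩
  obtain ⟨s, hs1, hs2, -⟩ := avoid3 (fx σ) D.cardk D.q4 D.cardK P₁ P₂ P₂ hP₁ hP₂ hP₂
  have hs1' : D.tr ((s + σ s) * l v ^ 2) ≠ 0 := hs1
  have hls : l s ∉ fx σ := by
    intro h
    apply hs2
    have h' : σ (l s) = l s := h
    change l s + σ (l s) = 0
    rw [h', D.add_self]
  have hsk : s ∉ fx σ := by
    intro h
    apply hs1'
    have h' : σ s = s := h
    rw [h', D.add_self, zero_mul]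
    exact D.tr_zero
  -- choice of `s'`
  let Z₁ : Submodule (fx σ) K := kerSub (fun t => D.tr ((s + σ s) * l t ^ 2)) 2
    (by
      intro x y
      rw [ladd, D.sq_add, ← D.tr_add]
      congr 1
      ring)
    (by
      intro c hc x
      rw [lsmul c hc, ← D.tr_smul ((fx σ).pow_mem hc 2)]
      congr 1
      ring)
    (by
      rw [l0]
      simp only [ne_eq, OfNat.ofNat_ne_zero, not_false_eq_true, zero_pow, mul_zero]
      exact D.tr_zero)
  have hZ₁ : Z₁ ≠ ⊤ := kerSub_ne_top ⟨v, hs1'⟩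
  let Z₂ : Submodule (fx σ) K := kerSub (fun t => D.tr ((t + σ t) * l s ^ 2)) 1
    (by
      intro x y
      rw [map_add, ← D.tr_add]
      congr 1
      ring)
    (by
      intro c hc x
      have hc' : σ c = c := hc
      rw [map_mul, hc', pow_one, ← D.tr_smul hc]
      congr 1
      ring)
    (by
      rw [map_zero, add_zero, zero_mul]
      exact D.tr_zero)
  have hZ₂ : Z₂ ≠ ⊤ := kerSub_ne_top (by
    obtain ⟨t, ht⟩ := D.exists_tr_diff_ne (x := l s ^ 2) (fun h => hls (D.sqrt_mem h))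
    exact ⟨t, ht⟩)
  obtain ⟨s', hα, hβ, hγ⟩ := avoid3 (fx σ) D.cardk D.q4 D.cardK Z₁ Z₂ _ hZ₁ hZ₂ (D.span_ne_top s)
  have hα' : D.tr ((s + σ s) * l s' ^ 2) ≠ 0 := hα
  have hβ' : D.tr ((s' + σ s') * l s ^ 2) ≠ 0 := hβ
  have hne : ∀ a ∈ fx σ, ∀ b ∈ fx σ, s' ≠ a + b * s := fun a ha b hb =>
    not_mem_span hγ ha hb
  set α := D.tr ((s + σ s) * l s' ^ 2) with hαdef
  set β := D.tr ((s' + σ s') * l s ^ 2) with hβdef
  have hαk : α ∈ fx σ := D.tr_mem _
  have hβk : β ∈ fx σ := D.tr_mem _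
  have hνk : α / β ∈ fx σ := (fx σ).div_mem hαk hβk
  have hν0 : α / β ≠ 0 := div_ne_zero hα' hβ'
  have hX : D.tr ((s + σ s) * l s' ^ 2 + (α / β) * ((s' + σ s') * l s ^ 2)) = 0 := by
    rw [D.tr_add, D.tr_smul hνk, ← hαdef, ← hβdef, div_mul_cancel₀ _ hβ', D.add_self]
  have hσs : s + σ s ≠ 0 := by
    intro h
    exact hsk (D.eq_of_add h).symm
  have hind : ∀ c ∈ fx σ, s' + σ s' ≠ c * (s + σ s) := by
    intro c hc h
    have hc' : σ c = c := hc
    -- `s' + c s ∈ fx σ`
    have h1 : (s' + c * s) + σ (s' + c * s) = 0 := by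
      rw [map_add, map_mul, hc']
      have := D.add_self (c * (s + σ s))
      linear_combination this + h
    have h2 : s' + c * s ∈ fx σ := (D.eq_of_add h1).symm
    apply hne _ h2 _ hc
    have := D.add_self (c * s)
    linear_combination -this
  obtain ⟨κ, hκ, μ, hμ, hXe⟩ := D.ker_tr_span (D.tr_diff s') (D.tr_diff s) hX hσs hind
  -- `(s + σ s) (l s'^2 + μ) = ν (s' + σ s') (l s^2 + κ / ν)`
  obtain ⟨lam', hlam'⟩ := D.exists_sqrt μ
  obtain ⟨lam, hlam⟩ := D.exists_sqrt (κ / (α / β))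
  have hlam'k : lam' ∈ fx σ := D.sqrt_mem (by rw [hlam']; exact hμ)
  have hlamk : lam ∈ fx σ := D.sqrt_mem (by rw [hlam]; exact (fx σ).div_mem hκ hνk)
  have hl1 : l (s + lam) = l s + lam := by
    rw [ladd]
    congr 1
    have := lsmul lam hlamk 1
    rw [mul_one, l1, mul_one] at this
    exact this
  have hl2 : l (s' + lam') = l s' + lam' := by
    rw [ladd]
    congr 1
    have := lsmul lam' hlam'k 1
    rw [mul_one, l1, mul_one] at this
    exact this
  have hσ1 : (s + lam) + σ (s + lam) = s + σ s := by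
    have h' : σ lam = lam := hlamk
    rw [map_add, h']
    have := D.add_self lam
    linear_combination this
  have hσ2 : (s' + lam') + σ (s' + lam') = s' + σ s' := by
    have h' : σ lam' = lam' := hlam'k
    rw [map_add, h']
    have := D.add_self lam'
    linear_combination this
  have hmain : (s + σ s) * l (s' + lam') ^ 2 = (α / β) * ((s' + σ s') * l (s + lam) ^ 2) := by
    rw [hl1, hl2, D.sq_add, D.sq_add, hlam, hlam']
    have e : (α / β) * (κ / (α / β)) = κ := by field_simp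
    have d1 := D.add_self ((s + σ s) * μ)
    have d2 := D.add_self ((α / β) * ((s' + σ s') * l s ^ 2))
    linear_combination hXe + d1 - d2 - (s' + σ s') * e
  have hs'k : s' + σ s' ≠ 0 := by
    intro h
    apply hind 0 (fx σ).zero_mem
    rw [h, zero_mul]
  have hlz : l (s + lam) ≠ 0 := by
    intro h
    rw [hl1] at h
    have := D.eq_of_add h
    rw [this] at hls
    exact hls hlamk
  refine ⟨s + lam, s' + lam', α / β, hνk, hν0, ?_, ?_, ?_, hlz, ?_, ?_⟩
  · intro c hc h
    apply hne (c * lam - lam') ((fx σ).sub_mem ((fx σ).mul_mem hc hlamk) hlam'k) c hc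
    linear_combination h
  · intro h
    apply hsk
    have : s = (s + lam) - lam := by ring
    rw [this]
    exact (fx σ).sub_mem h hlamk
  · intro h
    apply hne ((s' + lam') - lam') ((fx σ).sub_mem h hlam'k) 0 (fx σ).zero_mem
    ring
  · intro h
    rw [h] at hmain
    have h2 : (α / β) * ((s' + σ s') * l (s + lam) ^ 2) = 0 := by
      rw [← hmain]
      ring
    have h3 : (α / β) * ((s' + σ s') * l (s + lam) ^ 2) ≠ 0 :=
      mul_ne_zero hν0 (mul_ne_zero hs'k (pow_ne_zero 2 hlz))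
    exact h3 h2
  · rw [hσ1, hσ2]
    exact hmain

/-- `L₂` is proportional to `z + σ z` and `L₁` is injective. -/
lemma caseC (l : K → K) (ladd : ∀ x y, l (x + y) = l x + l y)
    (lsmul : ∀ c ∈ fx σ, ∀ x, l (c * x) = c * l x) (l1 : l 1 = 1)
    (hinj : ∀ z, l z = 0 → z = 0) :
    ∃ z z' ν : K, ν ∈ fx σ ∧ ν ≠ 0 ∧ (∀ c ∈ fx σ, z' ≠ c * z) ∧ z ∉ fx σ ∧ z' ∉ fx σ ∧
      l z * (z' + σ z') ^ 2 = ν * (l z' * (z + σ z) ^ 2) := by
  have := D.fin
  have l0 : l 0 = 0 := by
    have := ladd 0 0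
    rw [add_zero] at this
    exact (left_eq_add.mp this)
  have linj : Function.Injective l := by
    intro x y h
    have h1 : l (x + y) = 0 := by rw [ladd, h, D.add_self]
    exact D.eq_of_add (hinj _ h1)
  have lsurj : Function.Surjective l := Finite.injective_iff_surjective.mp linj
  -- some `s` outside the fixed field
  obtain ⟨s, hs⟩ : ∃ s : K, s ∉ fx σ := by
    by_contra hcon
    push Not at hcon
    have := D.indep 1 1 0 (by
      intro z
      have h : σ z = z := hcon z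
      rw [h]
      have := D.add_self z
      linear_combination this)
    exact one_ne_zero this.1
  have hls : l s ∉ fx σ := by
    intro h
    have h2 : l (l s) = l s := by
      have := lsmul (l s) h 1
      rw [mul_one, l1, mul_one] at this
      exact this
    have h3 : l s = s := linj h2
    rw [h3] at h
    exact hs h
  have hσs : s + σ s ≠ 0 := by
    intro h
    exact hs (D.eq_of_add h).symm
  let Z₁ : Submodule (fx σ) K := kerSub (fun t => D.tr (l s * (t + σ t) ^ 2)) 2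
    (by
      intro x y
      rw [← D.tr_add, map_add]
      congr 1
      have e : x + y + (σ x + σ y) = (x + σ x) + (y + σ y) := by ring
      rw [e, D.sq_add]
      ring)
    (by
      intro c hc x
      have hc' : σ c = c := hc
      rw [map_mul, hc', ← D.tr_smul ((fx σ).pow_mem hc 2)]
      congr 1
      ring)
    (by
      rw [map_zero]
      simp only [add_zero, ne_eq, OfNat.ofNat_ne_zero, not_false_eq_true, zero_pow, mul_zero]
      exact D.tr_zero)
  have hZ₁ : Z₁ ≠ ⊤ := kerSub_ne_top (by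
    obtain ⟨t, ht⟩ := D.exists_tr_diff_ne (x := l s) hls
    obtain ⟨r, hr⟩ := D.exists_sqrt t
    refine ⟨r, ?_⟩
    have e : l s * (r + σ r) ^ 2 = (t + σ t) * l s := by
      rw [D.sq_add, ← map_pow, hr]
      ring
    change D.tr (l s * (r + σ r) ^ 2) ≠ 0
    rw [e]
    exact ht)
  let Z₂ : Submodule (fx σ) K := kerSub (fun t => D.tr (l t * (s + σ s) ^ 2)) 1
    (by
      intro x y
      rw [← D.tr_add, ladd]
      congr 1
      ring)
    (by
      intro c hc x
      rw [lsmul c hc, pow_one, ← D.tr_smul hc]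
      congr 1
      ring)
    (by
      rw [l0, zero_mul]
      exact D.tr_zero)
  have hZ₂ : Z₂ ≠ ⊤ := kerSub_ne_top (by
    obtain ⟨t, ht⟩ := D.exists_tr_ne (x := (s + σ s) ^ 2) (pow_ne_zero 2 hσs)
    obtain ⟨r, hr⟩ := lsurj t
    refine ⟨r, ?_⟩
    change D.tr (l r * (s + σ s) ^ 2) ≠ 0
    rw [hr]
    exact ht)
  obtain ⟨s', hα, hβ, hγ⟩ := avoid3 (fx σ) D.cardk D.q4 D.cardK Z₁ Z₂ _ hZ₁ hZ₂ (D.span_ne_top s)
  have hα' : D.tr (l s * (s' + σ s') ^ 2) ≠ 0 := hα
  have hβ' : D.tr (l s' * (s + σ s) ^ 2) ≠ 0 := hβ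
  have hne : ∀ a ∈ fx σ, ∀ b ∈ fx σ, s' ≠ a + b * s := fun a ha b hb =>
    not_mem_span hγ ha hb
  set α := D.tr (l s * (s' + σ s') ^ 2) with hαdef
  set β := D.tr (l s' * (s + σ s) ^ 2) with hβdef
  have hαk : α ∈ fx σ := D.tr_mem _
  have hβk : β ∈ fx σ := D.tr_mem _
  have hνk : α / β ∈ fx σ := (fx σ).div_mem hαk hβk
  have hν0 : α / β ≠ 0 := div_ne_zero hα' hβ'
  have hX : D.tr (l s * (s' + σ s') ^ 2 + (α / β) * (l s' * (s + σ s) ^ 2)) = 0 := by
    rw [D.tr_add, D.tr_smul hνk, ← hαdef, ← hβdef, div_mul_cancel₀ _ hβ', D.add_self]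
  have hind : ∀ c ∈ fx σ, (s' + σ s') ^ 2 ≠ c * (s + σ s) ^ 2 := by
    intro c' hc' h'
    obtain ⟨c, hcc⟩ := D.exists_sqrt c'
    have hc : c ∈ fx σ := D.sqrt_mem (by rw [hcc]; exact hc')
    have h : s' + σ s' = c * (s + σ s) := D.sq_inj (by rw [h', ← hcc]; ring)
    have hc'' : σ c = c := hc
    have h1 : (s' + c * s) + σ (s' + c * s) = 0 := by
      rw [map_add, map_mul, hc'']
      have := D.add_self (c * (s + σ s))
      linear_combination this + h
    have h2 : s' + c * s ∈ fx σ := (D.eq_of_add h1).symm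
    apply hne _ h2 _ hc
    have := D.add_self (c * s)
    linear_combination -this
  have htr : ∀ t, D.tr ((t + σ t) ^ 2) = 0 := by
    intro t
    rw [D.tr_sq, D.tr_diff]
    ring
  obtain ⟨μ, hμ, κ, hκ, hXe⟩ := D.ker_tr_span (htr s') (htr s) hX (pow_ne_zero 2 hσs) hind
  have hkk : κ / (α / β) ∈ fx σ := (fx σ).div_mem hκ hνk
  have hl1 : l (s + μ) = l s + μ := by
    rw [ladd]
    congr 1
    have := lsmul μ hμ 1
    rw [mul_one, l1, mul_one] at this
    exact this
  have hl2 : l (s' + κ / (α / β)) = l s' + κ / (α / β) := by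
    rw [ladd]
    congr 1
    have := lsmul _ hkk 1
    rw [mul_one, l1, mul_one] at this
    exact this
  have hσ1 : (s + μ) + σ (s + μ) = s + σ s := by
    have h' : σ μ = μ := hμ
    rw [map_add, h']
    have := D.add_self μ
    linear_combination this
  have hσ2 : (s' + κ / (α / β)) + σ (s' + κ / (α / β)) = s' + σ s' := by
    have h' : σ (κ / (α / β)) = κ / (α / β) := hkk
    rw [map_add, h']
    have := D.add_self (κ / (α / β))
    linear_combination this
  have hmain : l (s + μ) * (s' + σ s') ^ 2 =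
      (α / β) * (l (s' + κ / (α / β)) * (s + σ s) ^ 2) := by
    rw [hl1, hl2]
    have e : (α / β) * (κ / (α / β)) = κ := by field_simp
    have d1 := D.add_self (μ * (s' + σ s') ^ 2)
    have d2 := D.add_self ((α / β) * (l s' * (s + σ s) ^ 2))
    linear_combination hXe + d1 - d2 - (s + σ s) ^ 2 * e
  refine ⟨s + μ, s' + κ / (α / β), α / β, hνk, hν0, ?_, ?_, ?_, ?_⟩
  · intro c hc h
    apply hne (c * μ - κ / (α / β)) ((fx σ).sub_mem ((fx σ).mul_mem hc hμ) hkk) c hc
    linear_combination h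
  · intro h
    apply hs
    have : s = (s + μ) - μ := by ring
    rw [this]
    exact (fx σ).sub_mem h hμ
  · intro h
    apply hne ((s' + κ / (α / β)) - κ / (α / β)) ((fx σ).sub_mem h hkk) 0 (fx σ).zero_mem
    ring
  · rw [hσ1, hσ2]
    exact hmain

end Pool.Agent.Work.MP_bbeacd_co.Dat
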