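import Mathlib

set_option autoImplicit false

/-! Power sums: `y ↦ (a y + b y^q + c y^(q²)) / y²` permutes the nonzero elements of the field with
`q³` elements (`q = 2^h > 2`) only if at most one of `a, b, c` is nonzero. -/

namespace Pool.Agent.Work.MP_bbeacd_co

variable {K : Type*} [Field K] [Fintype K]

lemma powersum [DecidableEq K] (L : K → K) (hL : ∀ y, y ≠ 0 → L y ≠ 0)
    (hinj : ∀ y y', y ≠ 0 → y' ≠ 0 → L y * y' ^ 2 = L y' * y ^ 2 → y = y') (k : ℕ)
    (hk : ¬ (Fintype.card K - 1) ∣ k) (hn : 2 ≤ Fintype.card K - 1) :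
    ∑ y : Kˣ, L (y : K) ^ k * (y : K) ^ ((Fintype.card K - 1 - 2) * k) = 0 := by
  set n := Fintype.card K - 1 with hndef
  have hy1 : ∀ y : Kˣ, (y : K) ^ (n - 2) * (y : K) ^ 2 = 1 := by
    intro y
    rw [← pow_add, Nat.sub_add_cancel hn, hndef]
    exact FiniteField.pow_card_sub_one_eq_one _ y.ne_zero
  have hg0 : ∀ y : Kˣ, L (y : K) * (y : K) ^ (n - 2) ≠ 0 := fun y =>
    mul_ne_zero (hL _ y.ne_zero) (pow_ne_zero _ y.ne_zero)
  let g : Kˣ → Kˣ := fun y => Units.mk0 _ (hg0 y)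
  have hg : Function.Injective g := by
    intro y y' h
    have h1 : L (y : K) * (y : K) ^ (n - 2) = L (y' : K) * (y' : K) ^ (n - 2) :=
      congrArg Units.val h
    apply Units.ext
    apply hinj _ _ y.ne_zero y'.ne_zero
    have e1 := hy1 y
    have e2 := hy1 y'
    calc L (y : K) * (y' : K) ^ 2
        = (L (y : K) * (y : K) ^ (n - 2)) * (y : K) ^ 2 * (y' : K) ^ 2 := by
          rw [mul_assoc (L (y : K)), e1, mul_one]
      _ = (L (y' : K) * (y' : K) ^ (n - 2)) * (y : K) ^ 2 * (y' : K) ^ 2 := by rw [h1]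
      _ = L (y' : K) * (y : K) ^ 2 * ((y' : K) ^ (n - 2) * (y' : K) ^ 2) := by ring
      _ = L (y' : K) * (y : K) ^ 2 := by rw [e2, mul_one]
  have hbij : Function.Bijective g := Finite.injective_iff_bijective.mp hg
  have h1 : ∑ y : Kˣ, ((g y : Kˣ) : K) ^ k = ∑ x : Kˣ, (x : K) ^ k :=
    hbij.sum_comp (fun x : Kˣ => (x : K) ^ k)
  rw [FiniteField.sum_pow_units, if_neg hk] at h1
  rw [← h1]
  apply Finset.sum_congr rfl
  intro y _
  change _ = (L (y : K) * (y : K) ^ (n - 2)) ^ k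
  rw [mul_pow, ← pow_mul]

omit [Fintype K] in
/-- In characteristic 2, all binomial coefficients of `2^r - 1` are odd. -/
lemma char2_pow [CharP K 2] (u v : K) (r : ℕ) (hr : 0 < r) :
    (u + v) ^ (2 ^ r - 1) = ∑ i ∈ Finset.range (2 ^ r), u ^ i * v ^ (2 ^ r - 1 - i) := by
  have h2 : 2 ≤ 2 ^ r := by
    calc 2 = 2 ^ 1 := rfl
      _ ≤ 2 ^ r := Nat.pow_le_pow_right (by norm_num) hr
  by_cases h : u + v = 0
  · have huv : u = v := CharTwo.add_eq_zero.mp h
    subst huv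
    rw [h, zero_pow (by omega), geom_sum₂_self]
    push_cast
    rw [CharTwo.two_eq_zero, zero_pow (by omega), zero_mul]
  · apply mul_right_cancel₀ h
    have h3 := geom_sum₂_mul u v (2 ^ r)
    rw [CharTwo.sub_eq_add] at h3
    rw [h3, CharTwo.sub_eq_add, ← pow_succ, Nat.sub_add_cancel (by omega), add_pow_char_pow]

variable {q : ℕ}

lemma bc_zero [CharP K 2] {h : ℕ} (hh : 1 < h) (hq : q = 2 ^ h) (hK : Fintype.card K = q ^ 3)
    (b c : K) (hL : ∀ y : K, y ≠ 0 → b * y ^ q + c * y ^ (q ^ 2) ≠ 0)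
    (hinj : ∀ y y' : K, y ≠ 0 → y' ≠ 0 →
      (b * y ^ q + c * y ^ (q ^ 2)) * y' ^ 2 = (b * y' ^ q + c * y' ^ (q ^ 2)) * y ^ 2 → y = y') :
    b = 0 ∨ c = 0 := by
  classical
  have hq4 : 4 ≤ q := by
    rw [hq]
    calc 4 = 2 ^ 2 := rfl
      _ ≤ 2 ^ h := Nat.pow_le_pow_right (by norm_num) hh
  have hq2 : q ^ 2 = 2 ^ (2 * h) := by rw [hq, ← pow_mul]; congr 1; ring
  have hlt : q ^ 2 < q ^ 3 - 1 := by
    have : q ^ 3 = q * q ^ 2 := by ring
    have h4 : 4 * q ^ 2 ≤ q * q ^ 2 := Nat.mul_le_mul_right _ hq4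
    have h5 : 0 < q ^ 2 := by positivity
    omega
  have hq16 : 16 ≤ q ^ 2 := by nlinarith
  have key := powersum (fun y : K => b * y ^ q + c * y ^ (q ^ 2)) hL hinj (q ^ 2 - 1)
    (by
      rw [hK]
      intro hd
      have := Nat.le_of_dvd (by omega) hd
      omega) (by rw [hK]; omega)
  rw [hK] at key
  -- expand
  have hexp : ∀ y : Kˣ, (b * (y : K) ^ q + c * (y : K) ^ (q ^ 2)) ^ (q ^ 2 - 1) *
      (y : K) ^ ((q ^ 3 - 1 - 2) * (q ^ 2 - 1)) =
      ∑ i ∈ Finset.range (q ^ 2), (b ^ i * c ^ (q ^ 2 - 1 - i)) *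
        (y : K) ^ (q * i + q ^ 2 * (q ^ 2 - 1 - i) + (q ^ 3 - 1 - 2) * (q ^ 2 - 1)) := by
    intro y
    have := char2_pow (b * (y : K) ^ q) (c * (y : K) ^ (q ^ 2)) (2 * h) (by omega)
    rw [← hq2] at this
    rw [this, Finset.sum_mul]
    apply Finset.sum_congr rfl
    intro i _
    rw [mul_pow, mul_pow, pow_add, pow_add, pow_mul, pow_mul (y : K) (q ^ 2)]
    ring
  simp only [hexp] at key
  rw [Finset.sum_comm] at key
  have hS : ∀ i ∈ Finset.range (q ^ 2), ∑ y : Kˣ, (b ^ i * c ^ (q ^ 2 - 1 - i)) *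
        (y : K) ^ (q * i + q ^ 2 * (q ^ 2 - 1 - i) + (q ^ 3 - 1 - 2) * (q ^ 2 - 1)) =
      if i = 2 * q - 1 then - (b ^ i * c ^ (q ^ 2 - 1 - i)) else 0 := by
    intro i hi
    rw [Finset.mem_range] at hi
    rw [← Finset.mul_sum, FiniteField.sum_pow_units, hK]
    have hiff : (q ^ 3 - 1) ∣ (q * i + q ^ 2 * (q ^ 2 - 1 - i) + (q ^ 3 - 1 - 2) * (q ^ 2 - 1)) ↔
        i = 2 * q - 1 := by
      -- pass to integers
      rw [← Int.natCast_dvd_natCast]
      have c1 : ((q ^ 3 - 1 : ℕ) : ℤ) = (q : ℤ) ^ 3 - 1 := by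
        rw [Nat.cast_sub (by omega)]; push_cast; ring
      have c2 : ((q ^ 2 - 1 - i : ℕ) : ℤ) = (q : ℤ) ^ 2 - 1 - i := by
        rw [Nat.cast_sub (by omega), Nat.cast_sub (by omega)]; push_cast; ring
      have c3 : ((q ^ 3 - 1 - 2 : ℕ) : ℤ) = (q : ℤ) ^ 3 - 3 := by
        rw [Nat.cast_sub (by omega), Nat.cast_sub (by omega)]; push_cast; ring
      have c4 : ((q ^ 2 - 1 : ℕ) : ℤ) = (q : ℤ) ^ 2 - 1 := by
        rw [Nat.cast_sub (by omega)]; push_cast; ring
      push_cast [c1, c2, c3, c4]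
      have hqz : (q : ℤ) - 1 ≠ 0 := by
        have : (4 : ℤ) ≤ q := by exact_mod_cast hq4
        omega
      have e1 : (q : ℤ) ^ 3 - 1 = (q - 1) * (q ^ 2 + q + 1) := by ring
      have e2 : (q : ℤ) * i + (q : ℤ) ^ 2 * ((q : ℤ) ^ 2 - 1 - i) +
          ((q : ℤ) ^ 3 - 3) * ((q : ℤ) ^ 2 - 1) =
          ((q : ℤ) - 1) * (((q : ℤ) ^ 2 + q + 1) * ((q : ℤ) ^ 2 + q - 3) +
            (q : ℤ) * (2 * (q : ℤ) - 1 - i)) := by
        ring
      rw [e2, e1, mul_dvd_mul_iff_left hqz]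
      constructor
      · intro hd
        have hd2 : ((q : ℤ) ^ 2 + q + 1) ∣ (q : ℤ) * (2 * (q : ℤ) - 1 - i) := by
          have := dvd_sub hd (Dvd.intro ((q : ℤ) ^ 2 + q - 3) rfl)
          rwa [add_sub_cancel_left] at this
        have hcop : IsCoprime ((q : ℤ) ^ 2 + q + 1) (q : ℤ) := ⟨1, -((q : ℤ) + 1), by ring⟩
        have hd3 := hcop.dvd_of_dvd_mul_left hd2
        have hzero : (2 * (q : ℤ) - 1 - i) = 0 := by
          apply Int.eq_zero_of_abs_lt_dvd hd3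
          have hi' : (i : ℤ) < (q : ℤ) ^ 2 := by exact_mod_cast hi
          have hq4' : (4 : ℤ) ≤ q := by exact_mod_cast hq4
          rw [abs_lt]
          constructor
          · nlinarith
          · nlinarith [Int.natCast_nonneg i]
        omega
      · intro hi2
        have : (2 * (q : ℤ) - 1 - i) = 0 := by omega
        rw [this]
        exact ⟨(q : ℤ) ^ 2 + q - 3, by ring⟩
    by_cases hc : i = 2 * q - 1
    · rw [if_pos (hiff.mpr hc), if_pos hc]
      ring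
    · rw [if_neg (fun h => hc (hiff.mp h)), if_neg hc, mul_zero]
  rw [Finset.sum_congr rfl hS, Finset.sum_ite_eq'] at key
  rw [if_pos (by
    rw [Finset.mem_range]
    nlinarith [Nat.sub_le (2 * q) 1])] at key
  have h3 : b ^ (2 * q - 1) * c ^ (q ^ 2 - 1 - (2 * q - 1)) = 0 := neg_eq_zero.mp key
  rcases mul_eq_zero.mp h3 with h4 | h4
  · left
    by_contra hb
    exact (pow_ne_zero _ hb) h4
  · right
    by_contra hc
    exact (pow_ne_zero _ hc) h4

lemma ac_zero [CharP K 2] {h : ℕ} (hh : 1 < h) (hq : q = 2 ^ h) (hK : Fintype.card K = q ^ 3)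
    (a c : K) (hL : ∀ y : K, y ≠ 0 → a * y + c * y ^ (q ^ 2) ≠ 0)
    (hinj : ∀ y y' : K, y ≠ 0 → y' ≠ 0 →
      (a * y + c * y ^ (q ^ 2)) * y' ^ 2 = (a * y' + c * y' ^ (q ^ 2)) * y ^ 2 → y = y') :
    a = 0 ∨ c = 0 := by
  classical
  have hq4 : 4 ≤ q := by
    rw [hq]
    calc 4 = 2 ^ 2 := rfl
      _ ≤ 2 ^ h := Nat.pow_le_pow_right (by norm_num) hh
  have hq2 : q ^ 2 = 2 ^ (2 * h) := by rw [hq, ← pow_mul]; congr 1; ring
  have hlt : q ^ 2 < q ^ 3 - 1 := by
    have : q ^ 3 = q * q ^ 2 := by ring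
    have h4 : 4 * q ^ 2 ≤ q * q ^ 2 := Nat.mul_le_mul_right _ hq4
    have h5 : 0 < q ^ 2 := by positivity
    omega
  have hq16 : 16 ≤ q ^ 2 := by nlinarith
  have key := powersum (fun y : K => a * y + c * y ^ (q ^ 2)) hL hinj (q ^ 2 - 1)
    (by
      rw [hK]
      intro hd
      have := Nat.le_of_dvd (by omega) hd
      omega) (by rw [hK]; omega)
  rw [hK] at key
  -- expand
  have hexp : ∀ y : Kˣ, (a * (y : K) + c * (y : K) ^ (q ^ 2)) ^ (q ^ 2 - 1) *
      (y : K) ^ ((q ^ 3 - 1 - 2) * (q ^ 2 - 1)) =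
      ∑ i ∈ Finset.range (q ^ 2), (a ^ i * c ^ (q ^ 2 - 1 - i)) *
        (y : K) ^ (i + q ^ 2 * (q ^ 2 - 1 - i) + (q ^ 3 - 1 - 2) * (q ^ 2 - 1)) := by
    intro y
    have := char2_pow (a * (y : K)) (c * (y : K) ^ (q ^ 2)) (2 * h) (by omega)
    rw [← hq2] at this
    rw [this, Finset.sum_mul]
    apply Finset.sum_congr rfl
    intro i _
    rw [mul_pow, mul_pow, pow_add, pow_add, pow_mul (y : K) (q ^ 2)]
    ring
  simp only [hexp] at key
  rw [Finset.sum_comm] at key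
  have hS : ∀ i ∈ Finset.range (q ^ 2), ∑ y : Kˣ, (a ^ i * c ^ (q ^ 2 - 1 - i)) *
        (y : K) ^ (i + q ^ 2 * (q ^ 2 - 1 - i) + (q ^ 3 - 1 - 2) * (q ^ 2 - 1)) =
      if i = q ^ 2 - 2 then - (a ^ i * c ^ (q ^ 2 - 1 - i)) else 0 := by
    intro i hi
    rw [Finset.mem_range] at hi
    rw [← Finset.mul_sum, FiniteField.sum_pow_units, hK]
    have hiff : (q ^ 3 - 1) ∣ (i + q ^ 2 * (q ^ 2 - 1 - i) + (q ^ 3 - 1 - 2) * (q ^ 2 - 1)) ↔
        i = q ^ 2 - 2 := by
      -- pass to integers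
      rw [← Int.natCast_dvd_natCast]
      have c1 : ((q ^ 3 - 1 : ℕ) : ℤ) = (q : ℤ) ^ 3 - 1 := by
        rw [Nat.cast_sub (by omega)]; push_cast; ring
      have c2 : ((q ^ 2 - 1 - i : ℕ) : ℤ) = (q : ℤ) ^ 2 - 1 - i := by
        rw [Nat.cast_sub (by omega), Nat.cast_sub (by omega)]; push_cast; ring
      have c3 : ((q ^ 3 - 1 - 2 : ℕ) : ℤ) = (q : ℤ) ^ 3 - 3 := by
        rw [Nat.cast_sub (by omega), Nat.cast_sub (by omega)]; push_cast; ring
      have c4 : ((q ^ 2 - 1 : ℕ) : ℤ) = (q : ℤ) ^ 2 - 1 := by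
        rw [Nat.cast_sub (by omega)]; push_cast; ring
      push_cast [c1, c2, c3, c4]
      have hqz : (q : ℤ) - 1 ≠ 0 := by
        have : (4 : ℤ) ≤ q := by exact_mod_cast hq4
        omega
      have e1 : (q : ℤ) ^ 3 - 1 = (q - 1) * (q ^ 2 + q + 1) := by ring
      have e2 : (i : ℤ) + (q : ℤ) ^ 2 * ((q : ℤ) ^ 2 - 1 - i) +
          ((q : ℤ) ^ 3 - 3) * ((q : ℤ) ^ 2 - 1) =
          ((q : ℤ) - 1) * (((q : ℤ) ^ 2 + q + 1) * ((q : ℤ) ^ 2 - 1) +
            ((q : ℤ) + 1) * ((q : ℤ) ^ 2 - 2 - i)) := by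
        ring
      rw [e2, e1, mul_dvd_mul_iff_left hqz]
      constructor
      · intro hd
        have hd2 : ((q : ℤ) ^ 2 + q + 1) ∣ ((q : ℤ) + 1) * ((q : ℤ) ^ 2 - 2 - i) := by
          have := dvd_sub hd (Dvd.intro ((q : ℤ) ^ 2 - 1) rfl)
          rwa [add_sub_cancel_left] at this
        have hcop : IsCoprime ((q : ℤ) ^ 2 + q + 1) ((q : ℤ) + 1) := ⟨1, -(q : ℤ), by ring⟩
        have hd3 := hcop.dvd_of_dvd_mul_left hd2
        have hzero : ((q : ℤ) ^ 2 - 2 - i) = 0 := by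
          apply Int.eq_zero_of_abs_lt_dvd hd3
          have hi' : (i : ℤ) < (q : ℤ) ^ 2 := by exact_mod_cast hi
          have hq4' : (4 : ℤ) ≤ q := by exact_mod_cast hq4
          rw [abs_lt]
          constructor
          · nlinarith
          · nlinarith [Int.natCast_nonneg i]
        have : ((q ^ 2 : ℕ) : ℤ) = (q : ℤ) ^ 2 := by push_cast; ring
        omega
      · intro hi2
        have h0 : ((q ^ 2 : ℕ) : ℤ) = (q : ℤ) ^ 2 := by push_cast; ring
        have : ((q : ℤ) ^ 2 - 2 - i) = 0 := by omega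
        rw [this]
        exact ⟨(q : ℤ) ^ 2 - 1, by ring⟩
    by_cases hc : i = q ^ 2 - 2
    · rw [if_pos (hiff.mpr hc), if_pos hc]
      ring
    · rw [if_neg (fun h => hc (hiff.mp h)), if_neg hc, mul_zero]
  rw [Finset.sum_congr rfl hS, Finset.sum_ite_eq'] at key
  rw [if_pos (by
    rw [Finset.mem_range]
    omega)] at key
  have h3 : a ^ (q ^ 2 - 2) * c ^ (q ^ 2 - 1 - (q ^ 2 - 2)) = 0 := neg_eq_zero.mp key
  rcases mul_eq_zero.mp h3 with h4 | h4
  · left
    by_contra hb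
    exact (pow_ne_zero _ hb) h4
  · right
    by_contra hc
    exact (pow_ne_zero _ hc) h4

lemma ab_zero [CharP K 2] {h : ℕ} (hh : 1 < h) (hq : q = 2 ^ h) (hK : Fintype.card K = q ^ 3)
    (a b c : K) (hL : ∀ y : K, y ≠ 0 → a * y + (b * y ^ q + c * y ^ (q ^ 2)) ≠ 0)
    (hinj : ∀ y y' : K, y ≠ 0 → y' ≠ 0 →
      (a * y + (b * y ^ q + c * y ^ (q ^ 2))) * y' ^ 2 =
        (a * y' + (b * y' ^ q + c * y' ^ (q ^ 2))) * y ^ 2 → y = y') :
    a = 0 ∨ b = 0 := by
  classical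
  have hq4 : 4 ≤ q := by
    rw [hq]
    calc 4 = 2 ^ 2 := rfl
      _ ≤ 2 ^ h := Nat.pow_le_pow_right (by norm_num) hh
  have hlt : q ^ 2 < q ^ 3 - 1 := by
    have : q ^ 3 = q * q ^ 2 := by ring
    have h4 : 4 * q ^ 2 ≤ q * q ^ 2 := Nat.mul_le_mul_right _ hq4
    have h5 : 0 < q ^ 2 := by positivity
    omega
  have hq16 : 16 ≤ q ^ 2 := by nlinarith
  have hqq : q ≤ q ^ 2 := by nlinarith
  have key := powersum (fun y : K => a * y + (b * y ^ q + c * y ^ (q ^ 2))) hL hinj (q - 1)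
    (by
      rw [hK]
      intro hd
      have := Nat.le_of_dvd (by omega) hd
      omega) (by rw [hK]; omega)
  rw [hK] at key
  -- expand
  have hexp : ∀ y : Kˣ, (a * (y : K) + (b * (y : K) ^ q + c * (y : K) ^ (q ^ 2))) ^ (q - 1) *
      (y : K) ^ ((q ^ 3 - 1 - 2) * (q - 1)) =
      ∑ i ∈ Finset.range q, ∑ m ∈ Finset.range (q - 1 - i + 1),
        (a ^ i * (b ^ m * c ^ (q - 1 - i - m)) * ((q - 1 - i).choose m : K)) *
        (y : K) ^ (i + (q * m + q ^ 2 * (q - 1 - i - m)) + (q ^ 3 - 1 - 2) * (q - 1)) := by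
    intro y
    have := char2_pow (a * (y : K)) (b * (y : K) ^ q + c * (y : K) ^ (q ^ 2)) h (by omega)
    rw [← hq] at this
    rw [this, Finset.sum_mul]
    apply Finset.sum_congr rfl
    intro i _
    rw [add_pow, Finset.mul_sum, Finset.sum_mul]
    apply Finset.sum_congr rfl
    intro m _
    rw [mul_pow, mul_pow, mul_pow, pow_add, pow_add, pow_add, pow_mul (y : K) (q ^ 2),
      pow_mul (y : K) q]
    ring
  simp only [hexp] at key
  rw [Finset.sum_comm] at key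
  have hS : ∀ i ∈ Finset.range q, ∑ y : Kˣ, ∑ m ∈ Finset.range (q - 1 - i + 1),
        (a ^ i * (b ^ m * c ^ (q - 1 - i - m)) * ((q - 1 - i).choose m : K)) *
        (y : K) ^ (i + (q * m + q ^ 2 * (q - 1 - i - m)) + (q ^ 3 - 1 - 2) * (q - 1)) =
      if i = q - 2 then - (a ^ (q - 2) * b) else 0 := by
    intro i hi
    rw [Finset.mem_range] at hi
    rw [Finset.sum_comm]
    have hT : ∀ m ∈ Finset.range (q - 1 - i + 1), ∑ y : Kˣ,
        (a ^ i * (b ^ m * c ^ (q - 1 - i - m)) * ((q - 1 - i).choose m : K)) *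
        (y : K) ^ (i + (q * m + q ^ 2 * (q - 1 - i - m)) + (q ^ 3 - 1 - 2) * (q - 1)) =
        if (i = q - 2 ∧ m = 1) then - (a ^ (q - 2) * b) else 0 := by
      intro m hm
      rw [Finset.mem_range] at hm
      rw [← Finset.mul_sum, FiniteField.sum_pow_units, hK]
      obtain ⟨j, hj⟩ : ∃ j, q - 1 = i + m + j := ⟨q - 1 - i - m, by omega⟩
      have hj' : q - 1 - i - m = j := by omega
      rw [hj']
      have hiff : (q ^ 3 - 1) ∣ (i + (q * m + q ^ 2 * j) + (q ^ 3 - 1 - 2) * (q - 1)) ↔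
          (i = q - 2 ∧ m = 1) := by
        rw [← Int.natCast_dvd_natCast]
        have c1 : ((q ^ 3 - 1 : ℕ) : ℤ) = (q : ℤ) ^ 3 - 1 := by
          rw [Nat.cast_sub (by omega)]; push_cast; ring
        have c3 : ((q ^ 3 - 1 - 2 : ℕ) : ℤ) = (q : ℤ) ^ 3 - 3 := by
          rw [Nat.cast_sub (by omega), Nat.cast_sub (by omega)]; push_cast; ring
        have c4 : ((q - 1 : ℕ) : ℤ) = (q : ℤ) - 1 := by
          rw [Nat.cast_sub (by omega)]; push_cast; ring
        push_cast [c1, c3, c4]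
        have hjz : (q : ℤ) - 1 = i + m + j := by
          rw [← c4, hj]; push_cast; ring
        have hq4' : (4 : ℤ) ≤ q := by exact_mod_cast hq4
        have hi0 : (0 : ℤ) ≤ i := Int.natCast_nonneg i
        have hm0 : (0 : ℤ) ≤ m := Int.natCast_nonneg m
        have hj0 : (0 : ℤ) ≤ j := Int.natCast_nonneg j
        have e2 : (i : ℤ) + ((q : ℤ) * m + (q : ℤ) ^ 2 * j) + ((q : ℤ) ^ 3 - 3) * ((q : ℤ) - 1) =
            ((q : ℤ) ^ 3 - 1) * ((q : ℤ) - 1) +
              ((i : ℤ) + ((q : ℤ) * m + (q : ℤ) ^ 2 * j) - 2 * ((q : ℤ) - 1)) := by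
          ring
        rw [e2]
        have e3 : ((q : ℤ) ^ 3 - 1) ∣ ((q : ℤ) ^ 3 - 1) * ((q : ℤ) - 1) +
              ((i : ℤ) + ((q : ℤ) * m + (q : ℤ) ^ 2 * j) - 2 * ((q : ℤ) - 1)) ↔
            ((q : ℤ) ^ 3 - 1) ∣ ((i : ℤ) + ((q : ℤ) * m + (q : ℤ) ^ 2 * j) - 2 * ((q : ℤ) - 1)) :=
          (Int.dvd_add_right (Dvd.intro _ rfl))
        rw [e3]
        have hqq4 : 4 * (q : ℤ) ^ 2 ≤ (q : ℤ) ^ 3 := by
          have : (q : ℤ) ^ 3 = (q : ℤ) * (q : ℤ) ^ 2 := by ring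
          rw [this]
          exact mul_le_mul_of_nonneg_right hq4' (by positivity)
        constructor
        · intro hd
          have hzero : ((i : ℤ) + ((q : ℤ) * m + (q : ℤ) ^ 2 * j) - 2 * ((q : ℤ) - 1)) = 0 := by
            apply Int.eq_zero_of_abs_lt_dvd hd
            have hub : (i : ℤ) + ((q : ℤ) * m + (q : ℤ) ^ 2 * j) ≤ (q : ℤ) ^ 2 * (q - 1) := by
              rw [hjz]
              nlinarith [mul_nonneg hi0 (show (0 : ℤ) ≤ (q : ℤ) ^ 2 - 1 by nlinarith),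
                mul_nonneg hm0 (show (0 : ℤ) ≤ (q : ℤ) ^ 2 - q by nlinarith)]
            have hlb : 0 ≤ (i : ℤ) + ((q : ℤ) * m + (q : ℤ) ^ 2 * j) := by positivity
            rw [abs_lt]
            constructor
            · nlinarith
            · nlinarith
          have hj00 : j = 0 := by
            by_contra hne
            have hj1 : (1 : ℤ) ≤ j := by
              have : 1 ≤ j := Nat.one_le_iff_ne_zero.mpr hne
              exact_mod_cast this
            nlinarith [mul_nonneg (show (0 : ℤ) ≤ q by omega) hm0,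
              mul_le_mul_of_nonneg_left hj1 (show (0 : ℤ) ≤ (q : ℤ) ^ 2 by positivity)]
          subst hj00
          have hi' : (i : ℤ) = (q : ℤ) - 1 - m := by
            push_cast at hjz
            linarith
          rw [hi'] at hzero
          have h5 : ((q : ℤ) - 1) * (m - 1) = 0 := by
            push_cast at hzero
            linear_combination hzero
          have h6 : (m : ℤ) - 1 = 0 := by
            rcases mul_eq_zero.mp h5 with h | h
            · omega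
            · exact h
          have h7 : m = 1 := by omega
          subst h7
          exact ⟨by omega, rfl⟩
        · rintro ⟨h1, h2⟩
          have hj00 : j = 0 := by omega
          subst hj00
          subst h2
          have : (i : ℤ) = (q : ℤ) - 2 := by omega
          rw [this]
          have : ((q : ℤ) - 2 + ((q : ℤ) * (1 : ℕ) + (q : ℤ) ^ 2 * (0 : ℕ)) -
            2 * ((q : ℤ) - 1)) = 0 := by push_cast; ring
          rw [this]
          exact dvd_zero _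
      by_cases hc : i = q - 2 ∧ m = 1
      · rw [if_pos (hiff.mpr hc), if_pos hc]
        obtain ⟨h1, h2⟩ := hc
        have hj0 : j = 0 := by omega
        have hch : q - 1 - i = 1 := by omega
        rw [h2, hj0, hch, h1]
        simp
      · rw [if_neg (fun h => hc (hiff.mp h)), if_neg hc, mul_zero]
    rw [Finset.sum_congr rfl hT]
    by_cases hi2 : i = q - 2
    · simp only [hi2, true_and, if_true]
      rw [Finset.sum_ite_eq', if_pos]
      rw [Finset.mem_range]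
      omega
    · simp only [hi2, false_and, if_false, Finset.sum_const_zero]
  rw [Finset.sum_congr rfl hS, Finset.sum_ite_eq'] at key
  rw [if_pos (by
    rw [Finset.mem_range]
    omega)] at key
  have h3 : a ^ (q - 2) * b = 0 := neg_eq_zero.mp key
  rcases mul_eq_zero.mp h3 with h4 | h4
  · left
    by_contra hb
    exact (pow_ne_zero _ hb) h4
  · exact Or.inr h4

end Pool.Agent.Work.MP_bbeacd_co
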