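import Pool.Agent.Work.MP_bbeacd_co.Cases
import Pool.Agent.Work.MP_bbeacd_co.Pow

set_option autoImplicit false

/-! The automorphisms `x ↦ x^q` and `x ↦ x^(q²)` of the field with `q³` elements, and the
collision theorem. -/

namespace Pool.Agent.Work.MP_bbeacd_co

variable {K : Type*} [Field K] [Fintype K] {q : ℕ}

lemma indepq (hq4 : 4 ≤ q) (hK : Fintype.card K = q ^ 3) (a b c : K)
    (H : ∀ z : K, a * z + b * z ^ q + c * z ^ (q ^ 2) = 0) : a = 0 ∧ b = 0 ∧ c = 0 := by
  classical
  have hq16 : 16 ≤ q ^ 2 := by nlinarith
  have hqq : q < q ^ 2 := by nlinarith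
  have hlt : q ^ 2 < q ^ 3 - 1 := by
    have : q ^ 3 = q * q ^ 2 := by ring
    have h4 : 4 * q ^ 2 ≤ q * q ^ 2 := Nat.mul_le_mul_right _ hq4
    omega
  have hS : ∀ i : ℕ, ∑ x : Kˣ, (x : K) ^ i = if (q ^ 3 - 1) ∣ i then -1 else 0 := by
    intro i
    rw [FiniteField.sum_pow_units, hK]
  have hnd : ∀ i : ℕ, 0 < i → i < q ^ 3 - 1 → ¬ (q ^ 3 - 1) ∣ i := by
    intro i h1 h2 h3
    have := Nat.le_of_dvd h1 h3
    omega
  have ha : a = 0 := by
    have h1 : ∑ z : Kˣ, (a * (z : K) ^ 0 + b * (z : K) ^ (q - 1) + c * (z : K) ^ (q ^ 2 - 1)) = 0 := by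
      apply Finset.sum_eq_zero
      intro z _
      have hz := z.ne_zero
      apply mul_left_cancel₀ hz
      have := H (z : K)
      rw [mul_zero, ← this]
      have e1 : (z : K) ^ q = z * (z : K) ^ (q - 1) := by
        rw [← pow_succ']; congr 1; omega
      have e2 : (z : K) ^ (q ^ 2) = z * (z : K) ^ (q ^ 2 - 1) := by
        rw [← pow_succ']; congr 1; omega
      rw [e1, e2, pow_zero]
      ring
    rw [Finset.sum_add_distrib, Finset.sum_add_distrib, ← Finset.mul_sum, ← Finset.mul_sum,
      ← Finset.mul_sum, hS, hS, hS, if_pos (dvd_zero _), if_neg (hnd _ (by omega) (by omega)),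
      if_neg (hnd _ (by omega) (by omega))] at h1
    linear_combination -h1
  have hb : b = 0 := by
    have h1 : ∑ z : Kˣ, (b * (z : K) ^ 0 + c * (z : K) ^ (q ^ 2 - q)) = 0 := by
      apply Finset.sum_eq_zero
      intro z _
      have hz := z.ne_zero
      apply mul_left_cancel₀ (pow_ne_zero q hz)
      have := H (z : K)
      rw [ha] at this
      rw [mul_zero, ← this]
      have e2 : (z : K) ^ (q ^ 2) = z ^ q * (z : K) ^ (q ^ 2 - q) := by
        rw [← pow_add]; congr 1; omega
      rw [e2, pow_zero]
      ring
    rw [Finset.sum_add_distrib, ← Finset.mul_sum, ← Finset.mul_sum,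
      hS, hS, if_pos (dvd_zero _), if_neg (hnd _ (by omega) (by omega))] at h1
    linear_combination -h1
  refine ⟨ha, hb, ?_⟩
  have := H 1
  rw [ha, hb] at this
  simpa using this

lemma card_fixed (hq4 : 4 ≤ q) (hK : Fintype.card K = q ^ 3) :
    {x : K | x ^ q = x}.ncard = q := by
  classical
  have h1 : {x : K | x ^ q = x} = insert 0 (Units.val ''
      ((powMonoidHom (q - 1) : Kˣ →* Kˣ).ker : Set Kˣ)) := by
    ext x
    simp only [Set.mem_ofPred_eq, Set.mem_insert_iff, Set.mem_image, SetLike.mem_coe,
      MonoidHom.mem_ker, powMonoidHom_apply]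
    constructor
    · intro h
      by_cases hx : x = 0
      · exact Or.inl hx
      · right
        refine ⟨Units.mk0 x hx, ?_, rfl⟩
        apply Units.ext
        rw [Units.val_pow_eq_pow_val, Units.val_mk0, Units.val_one]
        apply mul_left_cancel₀ hx
        rw [← pow_succ', Nat.sub_add_cancel (by omega), h, mul_one]
    · rintro (h | ⟨u, hu, rfl⟩)
      · rw [h, zero_pow (by omega)]
      · have h2 : (u : K) ^ (q - 1) = 1 := by
          rw [← Units.val_pow_eq_pow_val, hu, Units.val_one]
        calc (u : K) ^ q = (u : K) ^ (q - 1) * u := by rw [← pow_succ, Nat.sub_add_cancel (by omega)]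
          _ = u := by rw [h2, one_mul]
  rw [h1, Set.ncard_insert_of_notMem, Set.ncard_image_of_injective _ Units.val_injective]
  · have h2 : ((powMonoidHom (q - 1) : Kˣ →* Kˣ).ker : Set Kˣ).ncard =
        Nat.card (powMonoidHom (q - 1) : Kˣ →* Kˣ).ker := rfl
    rw [h2, IsCyclic.card_powMonoidHom_ker, Nat.card_units, Nat.card_eq_fintype_card, hK]
    have h3 : (q - 1) ∣ (q ^ 3 - 1) := by
      have := Nat.sub_dvd_pow_sub_pow q 1 3
      simpa using this
    rw [Nat.gcd_eq_right h3]
    omega
  · rintro ⟨u, -, hu⟩
    exact u.ne_zero hu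

/-- `x ↦ x^(q^m)` for `m = 1, 2`. -/
lemma dat_of [CharP K 2] {h : ℕ} (hh : 1 < h) (hq : q = 2 ^ h) (hK : Fintype.card K = q ^ 3)
    (σ : K →+* K) (hσ : (∀ x, σ x = x ^ q) ∨ (∀ x, σ x = x ^ (q ^ 2))) : Dat K σ q := by
  have hq4 : 4 ≤ q := by
    rw [hq]
    calc 4 = 2 ^ 2 := rfl
      _ ≤ 2 ^ h := Nat.pow_le_pow_right (by norm_num) hh
  have hcard : ∀ x : K, x ^ (q ^ 3) = x := by
    intro x
    rw [← hK]
    exact FiniteField.pow_card x
  have hmem : ∀ x : K, x ∈ fx σ ↔ x ^ q = x := by
    intro x
    rw [mem_fx]
    rcases hσ with h1 | h2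
    · rw [h1]
    · rw [h2]
      constructor
      · intro h
        have e1 : x ^ (q ^ 4) = x := by
          have : q ^ 4 = q ^ 2 * q ^ 2 := by ring
          rw [this, pow_mul, h, h]
        have e2 : x ^ (q ^ 4) = x ^ q := by
          have : q ^ 4 = q ^ 3 * q := by ring
          rw [this, pow_mul, hcard]
        rw [← e2, e1]
      · intro h
        rw [sq, pow_mul, h, h]
  refine ⟨inferInstance, inferInstance, ?_, ?_, hq4, ?_, ?_⟩
  · intro x
    rcases hσ with h1 | h2
    · rw [h1, h1, h1, ← pow_mul, ← pow_mul]
      have : q * (q * q) = q ^ 3 := by ring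
      rw [this, hcard]
    · rw [h2, h2, h2, ← pow_mul, ← pow_mul]
      have : q ^ 2 * (q ^ 2 * q ^ 2) = q ^ 3 * q ^ 3 := by ring
      rw [this, pow_mul, hcard, hcard]
  · intro a b c H
    rcases hσ with h1 | h2
    · apply indepq hq4 hK
      intro z
      have := H z
      rw [h1, h1, ← pow_mul, ← sq] at this
      exact this
    · have := indepq hq4 hK a c b (by
        intro z
        have := H z
        rw [h2, h2, ← pow_mul] at this
        have e : q ^ 2 * q ^ 2 = q ^ 3 * q := by ring
        rw [e, pow_mul, hcard] at this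
        linear_combination this)
      exact ⟨this.1, this.2.2, this.2.1⟩
  · rw [Nat.card_eq_fintype_card, hK]
  · have h1 : Nat.card (fx σ) = ((fx σ : Subfield K) : Set K).ncard := rfl
    rw [h1, ← card_fixed (K := K) hq4 hK]
    congr 1
    ext x
    exact hmem x

/-- At most one of the three coefficients is nonzero. -/
lemma three [CharP K 2] {h : ℕ} (hh : 1 < h) (hq : q = 2 ^ h) (hK : Fintype.card K = q ^ 3)
    (a b c : K) (hL : ∀ y : K, y ≠ 0 → a * y + (b * y ^ q + c * y ^ (q ^ 2)) ≠ 0)
    (hinj : ∀ y y' : K, y ≠ 0 → y' ≠ 0 →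
      (a * y + (b * y ^ q + c * y ^ (q ^ 2))) * y' ^ 2 =
        (a * y' + (b * y' ^ q + c * y' ^ (q ^ 2))) * y ^ 2 → y = y') :
    (a = 0 ∨ b = 0) ∧ (a = 0 ∨ c = 0) ∧ (b = 0 ∨ c = 0) := by
  have hab := ab_zero hh hq hK a b c hL hinj
  by_cases ha : a = 0
  · refine ⟨hab, Or.inl ha, ?_⟩
    subst ha
    apply bc_zero hh hq hK b c
    · intro y hy
      have := hL y hy
      rwa [zero_mul, zero_add] at this
    · intro y y' hy hy' he
      apply hinj y y' hy hy'
      rw [zero_mul, zero_mul, zero_add, zero_add]
      exact he
  · have hb : b = 0 := by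
      rcases hab with h | h
      · exact absurd h ha
      · exact h
    subst hb
    have hac := ac_zero hh hq hK a c (by
      intro y hy
      have := hL y hy
      rwa [zero_mul, zero_add] at this) (by
      intro y y' hy hy' he
      apply hinj y y' hy hy'
      rw [zero_mul, zero_mul, zero_add, zero_add]
      exact he)
    exact ⟨hab, hac, Or.inl rfl⟩

/-- **Collision theorem.** -/
theorem collision [CharP K 2] {h : ℕ} (hh : 1 < h) (hq : q = 2 ^ h) (hK : Fintype.card K = q ^ 3)
    (σ : K →+* K) (hσ : (∀ x, σ x = x ^ q) ∨ (∀ x, σ x = x ^ (q ^ 2)))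
    (A B C E : K) (hw : A * E + B * C ≠ 0) (h1 : ¬ (A = 0 ∧ E = 0)) (h2 : ¬ (B = 0 ∧ C = 0)) :
    ∃ z z' ν : K, σ ν = ν ∧ ν ≠ 0 ∧ z ≠ 0 ∧ z' ≠ 0 ∧ (∀ c, σ c = c → z' ≠ c * z) ∧
      A * z + B * σ z ≠ 0 ∧ A * z' + B * σ z' ≠ 0 ∧ C * z + E * σ z ≠ 0 ∧ C * z' + E * σ z' ≠ 0 ∧
      (A * z + B * σ z) * (C * z' + E * σ z') ^ 2 =
        ν * ((A * z' + B * σ z') * (C * z + E * σ z) ^ 2) := by
  have D := dat_of hh hq hK σ hσ
  have hσ0 : ∀ x, σ x = 0 → x = 0 := fun x hx => (map_eq_zero σ).mp hx
  by_cases hi : ∃ k, k ≠ 0 ∧ A * k + B * σ k = 0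
  · -- case (i)
    obtain ⟨k, hk, hk1⟩ := hi
    have hσk : σ k ≠ 0 := fun h => hk (hσ0 k h)
    have hAB : A * k = B * σ k := D.eq_of_add hk1
    have hL2k : C * k + E * σ k ≠ 0 := by
      intro h0
      have hCE : C * k = E * σ k := D.eq_of_add h0
      apply hw
      have : (A * E + B * C) * (k * σ k) = 0 := by
        have d := D.add_self (A * k * (E * σ k))
        linear_combination d + (-(C * k)) * hAB + (A * k) * hCE
      rcases mul_eq_zero.mp this with h | h
      · exact h
      · exact absurd h (mul_ne_zero hk hσk)
    have hA0 : A ≠ 0 := by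
      intro hA
      rw [hA, zero_mul] at hAB
      have hB : B = 0 := by
        rcases mul_eq_zero.mp hAB.symm with h | h
        · exact h
        · exact absurd h hσk
      apply hw
      rw [hA, hB]
      ring
    set g := C * k + E * σ k with hg
    let l : K → K := fun z => (C * k * z + E * σ k * σ z) / g
    have ladd : ∀ x y, l (x + y) = l x + l y := by
      intro x y
      simp only [l, map_add]
      ring
    have lsmul : ∀ c ∈ fx σ, ∀ x, l (c * x) = c * l x := by
      intro c hc x
      have hc' : σ c = c := hc
      simp only [l, map_mul, hc']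
      ring
    have l1 : l 1 = 1 := by
      simp only [l, map_one, mul_one]
      rw [← hg]
      exact div_self hL2k
    have hr : ∃ v, l v ∉ fx σ := by
      by_contra hcon
      push Not at hcon
      have hz := D.indep (C * k / g) (E * σ k / g + σ (C * k / g)) (σ (E * σ k / g)) (by
        intro z
        have h3 : σ (l z) = l z := hcon z
        have h4 : l z = C * k / g * z + E * σ k / g * σ z := by
          simp only [l]
          ring
        rw [h4, map_add, map_mul, map_mul] at h3
        have d := D.add_self (C * k / g * z + E * σ k / g * σ z)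
        linear_combination h3 + d)
      have hz1 := hz.1
      have hz2 : E * σ k / g = 0 := hσ0 _ hz.2.2
      have : l 1 = 0 := by
        have h4 : l 1 = C * k / g * 1 + E * σ k / g * σ 1 := by
          simp only [l]
          ring
        rw [h4, hz1, hz2]
        ring
      rw [l1] at this
      exact one_ne_zero this
    obtain ⟨z, z', ν, hν, hν0, hzz, hz, hz', hlz, hlz', heq⟩ := D.caseB l ladd lsmul l1 hr
    have hL1 : ∀ t, A * (k * t) + B * σ (k * t) = A * k * (t + σ t) := by
      intro t
      rw [map_mul]
      linear_combination (-σ t) * hAB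
    have hL2 : ∀ t, C * (k * t) + E * σ (k * t) = g * l t := by
      intro t
      simp only [l]
      rw [map_mul, mul_div_cancel₀ _ hL2k]
      ring
    have hz0 : z ≠ 0 := by
      rintro rfl
      exact hz (fx σ).zero_mem
    have hz0' : z' ≠ 0 := by
      rintro rfl
      exact hz' (fx σ).zero_mem
    have hd : z + σ z ≠ 0 := fun h => hz (D.eq_of_add h).symm
    have hd' : z' + σ z' ≠ 0 := fun h => hz' (D.eq_of_add h).symm
    refine ⟨k * z, k * z', ν, hν, hν0, mul_ne_zero hk hz0, mul_ne_zero hk hz0', ?_, ?_, ?_, ?_, ?_,
      ?_⟩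
    · intro c hc h
      apply hzz c hc
      apply mul_left_cancel₀ hk
      rw [h]
      ring
    · rw [hL1]
      exact mul_ne_zero (mul_ne_zero hA0 hk) hd
    · rw [hL1]
      exact mul_ne_zero (mul_ne_zero hA0 hk) hd'
    · rw [hL2]
      exact mul_ne_zero hL2k hlz
    · rw [hL2]
      exact mul_ne_zero hL2k hlz'
    · rw [hL1, hL1, hL2, hL2]
      linear_combination (A * k * g ^ 2) * heq
  · push Not at hi
    by_cases hii : ∃ k, k ≠ 0 ∧ C * k + E * σ k = 0
    · -- case (ii)
      obtain ⟨k, hk, hk1⟩ := hii
      have hσk : σ k ≠ 0 := fun h => hk (hσ0 k h)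
      have hCE : C * k = E * σ k := D.eq_of_add hk1
      have hC0 : C ≠ 0 := by
        intro hC
        rw [hC, zero_mul] at hCE
        have hE : E = 0 := by
          rcases mul_eq_zero.mp hCE.symm with h | h
          · exact h
          · exact absurd h hσk
        apply hw
        rw [hC, hE]
        ring
      have hL1k : A * k + B * σ k ≠ 0 := hi k hk
      set g := A * k + B * σ k with hg
      let l : K → K := fun z => (A * (k * z) + B * σ (k * z)) / g
      have ladd : ∀ x y, l (x + y) = l x + l y := by
        intro x y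
        simp only [l, map_add, mul_add]
        ring
      have lsmul : ∀ c ∈ fx σ, ∀ x, l (c * x) = c * l x := by
        intro c hc x
        have hc' : σ c = c := hc
        simp only [l, map_mul, hc']
        ring
      have l1 : l 1 = 1 := by
        simp only [l, mul_one]
        rw [← hg]
        exact div_self hL1k
      have linj : ∀ z, l z = 0 → z = 0 := by
        intro z hz
        by_contra hz0
        have := hi (k * z) (mul_ne_zero hk hz0)
        apply this
        simp only [l] at hz
        rcases div_eq_zero_iff.mp hz with h | h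
        · exact h
        · exact absurd h hL1k
      obtain ⟨z, z', ν, hν, hν0, hzz, hz, hz', heq⟩ := D.caseC l ladd lsmul l1 linj
      have hL1 : ∀ t, A * (k * t) + B * σ (k * t) = g * l t := by
        intro t
        simp only [l]
        rw [mul_div_cancel₀ _ hL1k]
      have hL2 : ∀ t, C * (k * t) + E * σ (k * t) = C * k * (t + σ t) := by
        intro t
        rw [map_mul]
        linear_combination (-σ t) * hCE
      have hz0 : z ≠ 0 := by
        rintro rfl
        exact hz (fx σ).zero_mem
      have hz0' : z' ≠ 0 := by
        rintro rfl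
        exact hz' (fx σ).zero_mem
      have hd : z + σ z ≠ 0 := fun h => hz (D.eq_of_add h).symm
      have hd' : z' + σ z' ≠ 0 := fun h => hz' (D.eq_of_add h).symm
      refine ⟨k * z, k * z', ν, hν, hν0, mul_ne_zero hk hz0, mul_ne_zero hk hz0', ?_, ?_, ?_, ?_,
        ?_, ?_⟩
      · intro c hc h
        apply hzz c hc
        apply mul_left_cancel₀ hk
        rw [h]
        ring
      · exact hi _ (mul_ne_zero hk hz0)
      · exact hi _ (mul_ne_zero hk hz0')
      · rw [hL2]
        exact mul_ne_zero (mul_ne_zero hC0 hk) hd
      · rw [hL2]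
        exact mul_ne_zero (mul_ne_zero hC0 hk) hd'
      · rw [hL1, hL1, hL2, hL2]
        linear_combination (g * (C * k) ^ 2) * heq
    · -- case (iii)
      push Not at hii
      by_contra hcon
      have hnc : ∀ z z' : K, z ≠ 0 → z' ≠ 0 →
          (A * z + B * σ z) * (C * z' + E * σ z') ^ 2 =
            (A * z' + B * σ z') * (C * z + E * σ z) ^ 2 → ∃ c, σ c = c ∧ z' = c * z := by
        intro z z' hz hz' he
        by_contra hc
        push Not at hc
        exact hcon ⟨z, z', 1, map_one σ, one_ne_zero, hz, hz', hc, hi z hz, hi z' hz', hii z hz,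
          hii z' hz', by rw [one_mul]; exact he⟩
      have s3 := D.s3
      -- `L₂` is a bijection
      have L2add : ∀ x y : K, C * (x + y) + E * σ (x + y) = (C * x + E * σ x) + (C * y + E * σ y) := by
        intro x y
        rw [map_add]
        ring
      have hinj2 : Function.Injective (fun z : K => C * z + E * σ z) := by
        intro x y hxy
        have h3 : C * (x + y) + E * σ (x + y) = 0 := by
          rw [L2add]
          have : C * x + E * σ x = C * y + E * σ y := hxy
          rw [this, D.add_self]
        by_contra hne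
        apply hii (x + y) _ h3
        intro h0
        exact hne (D.eq_of_add h0)
      have hsurj2 : Function.Surjective (fun z : K => C * z + E * σ z) :=
        Finite.injective_iff_surjective.mp hinj2
      set d := C * σ C * σ (σ C) + E * σ E * σ (σ E) with hd
      have hdk : σ d = d := by
        rw [hd, map_add, map_mul, map_mul, map_mul, map_mul, s3, s3]
        ring
      have hML : ∀ z, σ C * σ (σ C) * (C * z + E * σ z) + E * σ (σ C) * σ (C * z + E * σ z) +
          E * σ E * σ (σ (C * z + E * σ z)) = d * z := by
        intro z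
        simp only [map_add, map_mul, s3]
        have e1 := D.add_self (E * σ C * σ (σ C) * σ z)
        have e2 := D.add_self (E * σ E * σ (σ C) * σ (σ z))
        rw [hd]
        linear_combination e1 + e2
      have hd0 : d ≠ 0 := by
        intro h0
        have h3 := D.indep (σ C * σ (σ C)) (E * σ (σ C)) (E * σ E) (by
          intro y
          obtain ⟨z, hz⟩ := hsurj2 y
          have hz' : C * z + E * σ z = y := hz
          have := hML z
          rw [hz', h0, zero_mul] at this
          exact this)
        have hE : E = 0 := by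
          rcases mul_eq_zero.mp h3.2.2 with h | h
          · exact h
          · exact hσ0 _ h
        have hC : C = 0 := by
          rcases mul_eq_zero.mp h3.1 with h | h
          · exact hσ0 _ h
          · exact hσ0 _ (hσ0 _ h)
        apply hw
        rw [hE, hC]
        ring
      set w := A * E + B * C with hwdef
      set a := A * (σ C * σ (σ C)) + B * (σ E * σ (σ E)) with ha
      set b := σ (σ C) * w with hb
      set c := σ E * w with hc
      -- `L₁ (M y) = a y + b σ y + c σ² y`
      have hLM : ∀ z, a * (C * z + E * σ z) + (b * σ (C * z + E * σ z) +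
          c * σ (σ (C * z + E * σ z))) = d * (A * z + B * σ z) := by
        intro z
        simp only [map_add, map_mul, s3]
        rw [ha, hb, hc, hd, hwdef]
        have e1 := D.add_self (A * E * σ C * σ (σ C) * σ z)
        have e2 := D.add_self (A * E * σ E * σ (σ C) * σ (σ z))
        have e3 := D.add_self (B * C * σ (σ C) * σ E * σ (σ z))
        have e4 := D.add_self (B * C * σ E * σ (σ E) * z)
        linear_combination e1 + e2 + e3 + e4
      have hLne : ∀ y : K, y ≠ 0 → a * y + (b * σ y + c * σ (σ y)) ≠ 0 := by
        intro y hy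
        obtain ⟨z, hz⟩ := hsurj2 y
        have hz' : C * z + E * σ z = y := hz
        have hz0 : z ≠ 0 := by
          rintro rfl
          apply hy
          rw [← hz', map_zero]
          ring
        rw [← hz', hLM]
        exact mul_ne_zero hd0 (hi z hz0)
      have hLinj : ∀ y y' : K, y ≠ 0 → y' ≠ 0 →
          (a * y + (b * σ y + c * σ (σ y))) * y' ^ 2 =
            (a * y' + (b * σ y' + c * σ (σ y'))) * y ^ 2 → y = y' := by
        intro y y' hy hy' he
        obtain ⟨z, hz⟩ := hsurj2 y
        obtain ⟨z', hz'⟩ := hsurj2 y'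
        have hzy : C * z + E * σ z = y := hz
        have hzy' : C * z' + E * σ z' = y' := hz'
        have hz0 : z ≠ 0 := by
          rintro rfl
          apply hy
          rw [← hzy, map_zero]
          ring
        have hz0' : z' ≠ 0 := by
          rintro rfl
          apply hy'
          rw [← hzy', map_zero]
          ring
        rw [← hzy, ← hzy', hLM, hLM] at he
        have he2 : (A * z + B * σ z) * (C * z' + E * σ z') ^ 2 =
            (A * z' + B * σ z') * (C * z + E * σ z) ^ 2 := by
          apply mul_left_cancel₀ hd0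
          linear_combination he
        obtain ⟨t, ht, hzt⟩ := hnc z z' hz0 hz0' he2
        have ht0 : t ≠ 0 := by
          rintro rfl
          apply hz0'
          rw [hzt, zero_mul]
        have h5 : C * z' + E * σ z' = t * (C * z + E * σ z) := by
          rw [hzt, map_mul, ht]
          ring
        have h6 : A * z' + B * σ z' = t * (A * z + B * σ z) := by
          rw [hzt, map_mul, ht]
          ring
        rw [h5, h6] at he2
        have hne : (A * z + B * σ z) * (C * z + E * σ z) ^ 2 ≠ 0 :=
          mul_ne_zero (hi z hz0) (pow_ne_zero 2 (hii z hz0))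
        have h7 : t = 1 := by
          apply mul_left_cancel₀ ht0
          apply mul_right_cancel₀ hne
          linear_combination he2
        rw [← hzy, ← hzy', hzt, h7, one_mul]
      -- the three relations
      have hrel : (a = 0 ∨ b = 0) ∧ (a = 0 ∨ c = 0) ∧ (b = 0 ∨ c = 0) := by
        rcases hσ with hs | hs
        · have hss : ∀ y, σ (σ y) = y ^ (q ^ 2) := by
            intro y
            rw [hs, hs, ← pow_mul, sq]
          simp only [hss] at hLne hLinj
          simp only [hs] at hLne hLinj
          exact three hh hq hK a b c hLne hLinj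
        · have hss : ∀ y, σ (σ y) = y ^ q := by
            intro y
            have hcard : ∀ x : K, x ^ (q ^ 3) = x := by
              intro x
              rw [← hK]
              exact FiniteField.pow_card x
            rw [hs, hs, ← pow_mul]
            have e : q ^ 2 * q ^ 2 = q ^ 3 * q := by ring
            rw [e, pow_mul, hcard]
          simp only [hss] at hLne hLinj
          simp only [hs] at hLne hLinj
          have := three hh hq hK a c b (by
            intro y hy
            have := hLne y hy
            rwa [add_comm (c * y ^ q)]) (by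
            intro y y' hy hy' he
            apply hLinj y y' hy hy'
            rw [add_comm (b * y ^ q ^ 2), add_comm (b * y' ^ q ^ 2)]
            exact he)
          exact ⟨this.2.1, this.1, this.2.2.symm⟩
      obtain ⟨hab, hac, hbc⟩ := hrel
      rcases hbc with hb0 | hc0
      · -- `C = 0`
        have hC : C = 0 := by
          rcases mul_eq_zero.mp hb0 with h | h
          · exact hσ0 _ (hσ0 _ h)
          · exact absurd h hw
        have hE : E ≠ 0 := by
          intro hE
          apply hw
          rw [hwdef, hC, hE]
          ring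
        have hcne : c ≠ 0 := mul_ne_zero (fun h => hE (hσ0 _ h)) hw
        have ha0 : a = 0 := by
          rcases hac with h | h
          · exact h
          · exact absurd h hcne
        rw [ha, hC, map_zero, map_zero] at ha0
        have h8 : B * (σ E * σ (σ E)) = 0 := by linear_combination ha0
        rcases mul_eq_zero.mp h8 with h | h
        · exact h2 ⟨h, hC⟩
        · rcases mul_eq_zero.mp h with h | h
          · exact hE (hσ0 _ h)
          · exact hE (hσ0 _ (hσ0 _ h))
      · -- `E = 0`
        have hE : E = 0 := by
          rcases mul_eq_zero.mp hc0 with h | h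
          · exact hσ0 _ h
          · exact absurd h hw
        have hC : C ≠ 0 := by
          intro hC
          apply hw
          rw [hwdef, hC, hE]
          ring
        have hbne : b ≠ 0 := mul_ne_zero (fun h => hC (hσ0 _ (hσ0 _ h))) hw
        have ha0 : a = 0 := by
          rcases hab with h | h
          · exact h
          · exact absurd h hbne
        rw [ha, hE, map_zero, map_zero] at ha0
        have h8 : A * (σ C * σ (σ C)) = 0 := by linear_combination ha0
        rcases mul_eq_zero.mp h8 with h | h
        · exact h1 ⟨h, hE⟩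
        · rcases mul_eq_zero.mp h with h | h
          · exact hC (hσ0 _ h)
          · exact hC (hσ0 _ (hσ0 _ h))

end Pool.Agent.Work.MP_bbeacd_co
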