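import Mathlib

set_option autoImplicit false

/-! Linear algebra over the fixed field of an automorphism of order three in characteristic 2. -/

namespace Pool.Agent.Work.MP_bbeacd_co

section avoid

variable {K : Type*} [Field K] [Finite K]

lemma finrank_three (k : Subfield K) {q : ℕ} (hk : Nat.card k = q) (hq : 4 ≤ q)
    (hK : Nat.card K = q ^ 3) : Module.finrank k K = 3 := by
  have h1 := Module.natCard_eq_pow_finrank (K := k) (V := K)
  rw [hk, hK] at h1
  exact (Nat.pow_right_injective (show 2 ≤ q by omega) h1).symm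

lemma card_proper (k : Subfield K) {q : ℕ} (hk : Nat.card k = q) (hq : 4 ≤ q)
    (hK : Nat.card K = q ^ 3) (Z : Submodule k K) (hZ : Z ≠ ⊤) :
    (Z : Set K).ncard ≤ q ^ 2 := by
  have h3 := finrank_three k hk hq hK
  have h1 := Module.natCard_eq_pow_finrank (K := k) (V := Z)
  have hlt : Module.finrank k Z < Module.finrank k K := by
    apply Submodule.finrank_lt hZ
  have h2 : (Z : Set K).ncard = Nat.card Z := rfl
  rw [h2, h1, hk]
  apply Nat.pow_le_pow_right (by omega)
  omega

lemma avoid3 (k : Subfield K) {q : ℕ} (hk : Nat.card k = q) (hq : 4 ≤ q)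
    (hK : Nat.card K = q ^ 3) (Z₁ Z₂ Z₃ : Submodule k K) (h1 : Z₁ ≠ ⊤) (h2 : Z₂ ≠ ⊤)
    (h3 : Z₃ ≠ ⊤) : ∃ x : K, x ∉ Z₁ ∧ x ∉ Z₂ ∧ x ∉ Z₃ := by
  by_contra hcon
  push Not at hcon
  have hun : (Set.univ : Set K) ⊆ (Z₁ : Set K) ∪ (Z₂ : Set K) ∪ (Z₃ : Set K) := by
    intro x _
    by_cases ha : x ∈ Z₁
    · exact Or.inl (Or.inl ha)
    · by_cases hb : x ∈ Z₂
      · exact Or.inl (Or.inr hb)
      · exact Or.inr (hcon x ha hb)
  have hc := Set.ncard_le_ncard hun (Set.toFinite _)
  rw [Set.ncard_univ, hK] at hc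
  have hu1 := Set.ncard_union_le ((Z₁ : Set K) ∪ (Z₂ : Set K)) (Z₃ : Set K)
  have hu2 := Set.ncard_union_le (Z₁ : Set K) (Z₂ : Set K)
  have e1 := card_proper k hk hq hK Z₁ h1
  have e2 := card_proper k hk hq hK Z₂ h2
  have e3 := card_proper k hk hq hK Z₃ h3
  have : q ^ 3 ≤ 3 * q ^ 2 := by omega
  have h4 : 4 * q ^ 2 ≤ q ^ 3 := by
    rw [pow_succ' q 2]
    exact Nat.mul_le_mul_right _ hq
  have h5 : 0 < q ^ 2 := by positivity
  omega

end avoid

/-- The data used below: an automorphism `σ` of order 3 of a finite field of characteristic 2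
whose fixed field has `q` elements, such that `1, σ, σ²` are linearly independent. -/
structure Dat (K : Type*) [Field K] (σ : K →+* K) (q : ℕ) : Prop where
  fin : Finite K
  char : CharP K 2
  s3 : ∀ x, σ (σ (σ x)) = x
  indep : ∀ a b c : K, (∀ z, a * z + b * σ z + c * σ (σ z) = 0) → a = 0 ∧ b = 0 ∧ c = 0
  q4 : 4 ≤ q
  cardK : Nat.card K = q ^ 3
  cardk : Nat.card (σ.eqLocusField (RingHom.id K)) = q

/-- The fixed field of `σ`. -/
abbrev fx {K : Type*} [Field K] (σ : K →+* K) : Subfield K := σ.eqLocusField (RingHom.id K)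

lemma mem_fx {K : Type*} [Field K] {σ : K →+* K} {x : K} : x ∈ fx σ ↔ σ x = x := Iff.rfl

namespace Dat

variable {K : Type*} [Field K] {σ : K →+* K} {q : ℕ} (D : Dat K σ q)

include D

lemma add_self (x : K) : x + x = 0 := by
  have := D.char
  exact CharTwo.add_self_eq_zero x

lemma eq_of_add {x y : K} (h : x + y = 0) : x = y := by
  have := D.char
  exact CharTwo.add_eq_zero.mp h

lemma sq_add (x y : K) : (x + y) ^ 2 = x ^ 2 + y ^ 2 := by
  have := D.char
  exact CharTwo.add_sq x y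

lemma sq_inj {x y : K} (h : x ^ 2 = y ^ 2) : x = y := by
  have h1 : (x + y) ^ 2 = 0 := by rw [D.sq_add, h, D.add_self]
  exact D.eq_of_add (by simpa using h1)

lemma exists_sqrt (x : K) : ∃ y : K, y ^ 2 = x := by
  have := D.fin
  have hinj : Function.Injective (fun y : K => y ^ 2) := fun a b h => D.sq_inj h
  exact (Finite.injective_iff_surjective.mp hinj) x

lemma sqrt_mem {x : K} (h : x ^ 2 ∈ fx σ) : x ∈ fx σ := by
  rw [mem_fx] at h ⊢
  rw [map_pow] at h
  exact D.sq_inj h

/-- the trace functional `x ↦ x + σ x + σ² x`. -/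
def tr (_ : Dat K σ q) (x : K) : K := x + σ x + σ (σ x)

lemma tr_mem (x : K) : D.tr x ∈ fx σ := by
  rw [mem_fx]
  unfold tr
  rw [map_add, map_add, D.s3]
  ring

lemma tr_add (x y : K) : D.tr (x + y) = D.tr x + D.tr y := by
  unfold tr
  simp only [map_add]
  ring

lemma tr_smul {c : K} (hc : c ∈ fx σ) (x : K) : D.tr (c * x) = c * D.tr x := by
  rw [mem_fx] at hc
  unfold tr
  simp only [map_mul, hc]
  ring

lemma tr_zero : D.tr 0 = 0 := by
  unfold tr
  simp

/-- the trace form is nondegenerate -/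
lemma exists_tr_ne {x : K} (hx : x ≠ 0) : ∃ s : K, D.tr (s * x) ≠ 0 := by
  by_contra hcon
  push Not at hcon
  have := D.indep x (σ x) (σ (σ x)) (by
    intro z
    have := hcon z
    unfold tr at this
    simp only [map_mul] at this
    linear_combination this)
  exact hx this.1

/-- if `x` is not in the fixed field, some `Tr ((s + σ s) x)` is nonzero. -/
lemma exists_tr_diff_ne {x : K} (hx : x ∉ fx σ) : ∃ s : K, D.tr ((s + σ s) * x) ≠ 0 := by
  by_contra hcon
  push Not at hcon
  apply hx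
  have key := D.indep (x + σ (σ x)) (x + σ x) (σ x + σ (σ x)) (by
    intro z
    have := hcon z
    unfold tr at this
    simp only [map_mul, map_add, D.s3] at this
    linear_combination this)
  rw [mem_fx]
  have h := key.2.1
  exact (D.eq_of_add h).symm

omit D in
/-- submodule of elements with `f s = 0`, for `f` semilinear (`f (c s) = c^e f s`). -/
def kerSub (f : K → K) (e : ℕ) (hadd : ∀ x y, f (x + y) = f x + f y)
    (hsmul : ∀ c ∈ fx σ, ∀ x, f (c * x) = c ^ e * f x) (h0 : f 0 = 0) : Submodule (fx σ) K where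
  carrier := {x | f x = 0}
  add_mem' := by
    intro a b ha hb
    simp only [Set.mem_ofPred_eq] at *
    rw [hadd, ha, hb, add_zero]
  zero_mem' := h0
  smul_mem' := by
    intro c x hx
    simp only [Set.mem_ofPred_eq] at *
    have : c • x = (c : K) * x := rfl
    rw [this, hsmul _ c.2, hx, mul_zero]

omit D in
lemma mem_kerSub {f : K → K} {e : ℕ} {hadd : ∀ x y, f (x + y) = f x + f y}
    {hsmul : ∀ c ∈ fx σ, ∀ x, f (c * x) = c ^ e * f x} {h0 : f 0 = 0} {x : K} :
    x ∈ kerSub f e hadd hsmul h0 ↔ f x = 0 := Iff.rfl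

omit D in
lemma kerSub_ne_top {f : K → K} {e : ℕ} {hadd : ∀ x y, f (x + y) = f x + f y}
    {hsmul : ∀ c ∈ fx σ, ∀ x, f (c * x) = c ^ e * f x} {h0 : f 0 = 0}
    (h : ∃ x, f x ≠ 0) : kerSub f e hadd hsmul h0 ≠ ⊤ := by
  obtain ⟨x, hx⟩ := h
  intro htop
  apply hx
  have : x ∈ kerSub f e hadd hsmul h0 := by rw [htop]; trivial
  exact this

/-- the kernel of the trace is spanned by any two independent elements of it. -/
lemma ker_tr_span {x y X : K} (hx : D.tr x = 0) (hy : D.tr y = 0) (hX : D.tr X = 0)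
    (hy0 : y ≠ 0) (hxy : ∀ c ∈ fx σ, x ≠ c * y) :
    ∃ μ ∈ fx σ, ∃ κ ∈ fx σ, X = μ * x + κ * y := by
  have := D.fin
  let H : Submodule (fx σ) K := kerSub D.tr 1 D.tr_add
    (by intro c hc x; rw [pow_one]; exact D.tr_smul hc x) D.tr_zero
  have hHtop : H ≠ ⊤ := kerSub_ne_top (by
    obtain ⟨s, hs⟩ := D.exists_tr_ne (one_ne_zero (α := K))
    exact ⟨s * 1, hs⟩)
  have hcard : Nat.card H ≤ q ^ 2 := card_proper (fx σ) D.cardk D.q4 D.cardK H hHtop
  let Φ : (fx σ) × (fx σ) → H := fun p => ⟨(p.1 : K) * x + (p.2 : K) * y, by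
    change D.tr _ = 0
    rw [D.tr_add, D.tr_smul p.1.2, D.tr_smul p.2.2, hx, hy]
    ring⟩
  have hinj : Function.Injective Φ := by
    rintro ⟨a, b⟩ ⟨c, d⟩ hab
    have hab' : (a : K) * x + (b : K) * y = (c : K) * x + (d : K) * y := congrArg Subtype.val hab
    by_cases hac : a = c
    · subst hac
      have : (b : K) * y = (d : K) * y := by linear_combination hab'
      have hbd : (b : K) = d := mul_right_cancel₀ hy0 this
      exact Prod.ext rfl (Subtype.ext hbd)
    · exfalso
      have hne : (a : K) - c ≠ 0 := fun h => hac (Subtype.ext (sub_eq_zero.mp h))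
      have hxe : x = (((d : K) - b) / ((a : K) - c)) * y := by
        field_simp
        linear_combination hab'
      exact hxy _ ((fx σ).div_mem ((fx σ).sub_mem d.2 b.2) ((fx σ).sub_mem a.2 c.2)) hxe
  have hcard2 : Nat.card ((fx σ) × (fx σ)) = q ^ 2 := by
    rw [Nat.card_prod, D.cardk, sq]
  have hbij : Function.Bijective Φ := by
    refine Function.Injective.bijective_of_nat_card_le hinj ?_
    rw [hcard2]
    exact hcard
  obtain ⟨p, hp⟩ := hbij.2 ⟨X, hX⟩
  refine ⟨p.1, p.1.2, p.2, p.2.2, ?_⟩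
  exact (congrArg Subtype.val hp).symm

lemma tr_diff (s : K) : D.tr (s + σ s) = 0 := by
  unfold tr
  simp only [map_add, D.s3]
  have := D.add_self (s + σ s + σ (σ s))
  linear_combination this

lemma tr_sq (s : K) : D.tr (s ^ 2) = (D.tr s) ^ 2 := by
  unfold tr
  rw [D.sq_add, D.sq_add]
  simp only [map_pow]

lemma span_ne_top (s : K) : Submodule.span (fx σ) {(1 : K), s} ≠ ⊤ := by
  have := D.fin
  intro h
  have h1 : Module.finrank (fx σ) K = 3 := finrank_three (fx σ) D.cardk D.q4 D.cardK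
  have h2 : Module.finrank (fx σ) (Submodule.span (fx σ) ({1, s} : Set K)) ≤ 2 := by
    classical
    have h5 := finrank_span_le_card (R := fx σ) ({1, s} : Set K)
    refine h5.trans ?_
    rw [Set.toFinset_card, ← Nat.card_eq_fintype_card]
    have := Set.ncard_insert_le (1 : K) {s}
    rw [Set.ncard_singleton] at this
    exact this
  rw [h, finrank_top, h1] at h2
  omega

omit D in
lemma not_mem_span {s s' : K} (h : s' ∉ Submodule.span (fx σ) {(1 : K), s}) {a b : K}
    (ha : a ∈ fx σ) (hb : b ∈ fx σ) : s' ≠ a + b * s := by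
  intro he
  apply h
  rw [he, Submodule.mem_span_pair]
  refine ⟨⟨a, ha⟩, ⟨b, hb⟩, ?_⟩
  change a * 1 + b * s = _
  ring

end Dat

end Pool.Agent.Work.MP_bbeacd_co
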